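import Mathlib

/-!
Summation by parts and toggle symmetry on a finite set of functions `ι → ℕ`.
-/

set_option linter.unusedSectionVars false

namespace Pool.Agent.Lib.MP_f5b555_co

open Finset

variable {ι : Type*} [Fintype ι] [DecidableEq ι]

/-- Add one to the coordinate `i`. -/
def up (μ : ι → ℕ) (i : ι) : ι → ℕ := Function.update μ i (μ i + 1)

/-- Subtract one from the coordinate `i`. -/
def dn (μ : ι → ℕ) (i : ι) : ι → ℕ := Function.update μ i (μ i - 1)

@[simp] lemma up_self (μ : ι → ℕ) (i : ι) : up μ i i = μ i + 1 := by simp [up]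

@[simp] lemma dn_self (μ : ι → ℕ) (i : ι) : dn μ i i = μ i - 1 := by simp [dn]

lemma up_ne (μ : ι → ℕ) {i j : ι} (h : j ≠ i) : up μ i j = μ j := by simp [up, h]

lemma dn_ne (μ : ι → ℕ) {i j : ι} (h : j ≠ i) : dn μ i j = μ j := by simp [dn, h]

lemma dn_up (μ : ι → ℕ) (i : ι) : dn (up μ i) i = μ := by
  funext j
  by_cases h : j = i
  · subst h; simp
  · rw [dn_ne _ h, up_ne _ h]

lemma up_dn (μ : ι → ℕ) (i : ι) (h0 : 0 < μ i) : up (dn μ i) i = μ := by
  funext j
  by_cases h : j = i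
  · subst h; rw [up_self, dn_self]; omega
  · rw [up_ne _ h, dn_ne _ h]

lemma dn_up_comm (μ : ι → ℕ) {i j : ι} (h : j ≠ i) : dn (up μ i) j = up (dn μ j) i := by
  funext x
  by_cases hx : x = j
  · subst hx
    rw [dn_self, up_ne _ h, up_ne _ h, dn_self]
  · by_cases hi : x = i
    · subst hi
      rw [dn_ne _ hx, up_self, up_self, dn_ne _ hx]
    · rw [dn_ne _ hx, up_ne _ hi, up_ne _ hi, dn_ne _ hx]

lemma up_up_comm (μ : ι → ℕ) {i j : ι} (h : j ≠ i) : up (up μ i) j = up (up μ j) i := by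
  funext x
  by_cases hx : x = j
  · subst hx
    rw [up_self, up_ne _ h, up_ne _ h, up_self]
  · by_cases hi : x = i
    · subst hi
      rw [up_ne _ hx, up_self, up_self, up_ne _ hx]
    · rw [up_ne _ hx, up_ne _ hi, up_ne _ hi, up_ne _ hx]

/-- Summation by parts. -/
lemma sum_swap (P : Finset (ι → ℕ)) (f : (ι → ℕ) → (ι → ℕ) → ι → ℚ) :
    ∑ ν ∈ P, ∑ i, (if 0 < ν i ∧ dn ν i ∈ P then f (dn ν i) ν i else 0) =
      ∑ μ ∈ P, ∑ i, (if up μ i ∈ P then f μ (up μ i) i else 0) := by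
  rw [sum_comm, sum_comm (s := P) (t := univ)]
  refine sum_congr rfl fun i _ => ?_
  rw [← sum_filter, ← sum_filter]
  refine sum_bij' (fun ν _ => dn ν i) (fun μ _ => up μ i) ?_ ?_ ?_ ?_ ?_
  · intro ν hν
    rw [mem_filter] at hν ⊢
    refine ⟨hν.2.2, ?_⟩
    rw [up_dn _ _ hν.2.1]
    exact hν.1
  · intro μ hμ
    rw [mem_filter] at hμ ⊢
    refine ⟨hμ.2, ?_, ?_⟩
    · rw [up_self]; omega
    · rw [dn_up]; exact hμ.1
  · intro ν hν
    rw [mem_filter] at hν
    exact up_dn _ _ hν.2.1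
  · intro μ _
    exact dn_up _ _
  · intro ν hν
    rw [mem_filter] at hν
    rw [up_dn _ _ hν.2.1]

/-- The toggle balance of a weight. -/
def Balanced (P : Finset (ι → ℕ)) (w : (ι → ℕ) → ℚ) : Prop :=
  ∀ (i : ι) (g : ℕ → ℚ),
    ∑ ν ∈ P, (if 0 < ν i ∧ dn ν i ∈ P then g (ν i) * w ν else 0) =
      ∑ μ ∈ P, (if up μ i ∈ P then g (μ i + 1) * w μ else 0)

lemma sum_swap_one (P : Finset (ι → ℕ)) (i : ι) (f : (ι → ℕ) → (ι → ℕ) → ℚ) :
    ∑ ν ∈ P, (if 0 < ν i ∧ dn ν i ∈ P then f (dn ν i) ν else 0) =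
      ∑ μ ∈ P, (if up μ i ∈ P then f μ (up μ i) else 0) := by
  have h := sum_swap P (fun μ ν j => if j = i then f μ ν else 0)
  have h1 : ∀ ν : ι → ℕ, (∑ j, (if 0 < ν j ∧ dn ν j ∈ P then
      (if j = i then f (dn ν j) ν else 0) else 0)) =
      (if 0 < ν i ∧ dn ν i ∈ P then f (dn ν i) ν else 0) := by
    intro ν
    rw [sum_eq_single i]
    · simp
    · intro j _ hj
      simp [hj]
    · intro h; exact absurd (mem_univ i) h
  have h2 : ∀ μ : ι → ℕ, (∑ j, (if up μ j ∈ P then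
      (if j = i then f μ (up μ j) else 0) else 0)) =
      (if up μ i ∈ P then f μ (up μ i) else 0) := by
    intro μ
    rw [sum_eq_single i]
    · simp
    · intro j _ hj
      simp [hj]
    · intro h; exact absurd (mem_univ i) h
  rw [sum_congr rfl fun ν _ => h1 ν, sum_congr rfl fun μ _ => h2 μ] at h
  exact h

lemma balanced_one (P : Finset (ι → ℕ)) : Balanced P (fun _ => 1) := by
  intro i g
  have h := sum_swap_one P i (fun _ ν => g (ν i) * 1)
  simp only [up_self] at h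
  exact h

/-- The weights `F * h` coming from upward and downward recursions are toggle balanced. -/
lemma balanced_mul (P : Finset (ι → ℕ))
    (hinf : ∀ μ ∈ P, ∀ ν ∈ P, μ ⊓ ν ∈ P) (hsup : ∀ μ ∈ P, ∀ ν ∈ P, μ ⊔ ν ∈ P)
    (F h : (ι → ℕ) → ℚ)
    (hF : ∀ ν ∈ P, (∃ i, 0 < ν i) →
      F ν = ∑ i, (if 0 < ν i ∧ dn ν i ∈ P then F (dn ν i) else 0))
    (hh : ∀ μ ∈ P, (∃ i, up μ i ∈ P) → h μ = ∑ i, (if up μ i ∈ P then h (up μ i) else 0)) :
    Balanced P (fun μ => F μ * h μ) := by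
  intro i g
  -- reduce to sums over `A`
  have e1 := sum_swap_one P i (fun _ ν => g (ν i) * (F ν * h ν))
  simp only [up_self] at e1
  rw [e1]
  set A : Finset (ι → ℕ) := P.filter (fun μ => up μ i ∈ P) with hA
  rw [← sum_filter, ← sum_filter]
  -- facts on `A`
  have hdn : ∀ μ ∈ A, ∀ j, j ≠ i →
      ((0 < up μ i j ∧ dn (up μ i) j ∈ P) ↔ (0 < μ j ∧ dn μ j ∈ A)) := by
    intro μ hμ j hj
    rw [hA, mem_filter] at hμ
    rw [up_ne _ hj, dn_up_comm _ hj, hA, mem_filter]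
    constructor
    · rintro ⟨h1, h2⟩
      refine ⟨h1, ?_, h2⟩
      have := hinf _ hμ.1 _ h2
      convert this using 1
      funext x
      rw [Pi.inf_apply]
      by_cases hx : x = j
      · subst hx
        rw [dn_self, up_ne _ hj, dn_self]
        exact (min_eq_right (Nat.sub_le _ _)).symm
      · rw [dn_ne _ hx]
        by_cases hxi : x = i
        · subst hxi
          rw [up_self, dn_ne _ hx]
          exact (min_eq_left (Nat.le_succ _)).symm
        · rw [up_ne _ hxi, dn_ne _ hx]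
          exact (min_self _).symm
    · rintro ⟨h1, _, h2⟩
      exact ⟨h1, h2⟩
  have hup : ∀ μ ∈ A, ∀ j, j ≠ i → (up μ j ∈ P ↔ up μ j ∈ A) := by
    intro μ hμ j hj
    rw [hA, mem_filter] at hμ
    rw [hA, mem_filter]
    constructor
    · intro h1
      refine ⟨h1, ?_⟩
      have := hsup _ h1 _ hμ.2
      convert this using 1
      funext x
      rw [Pi.sup_apply]
      by_cases hxi : x = i
      · subst hxi
        rw [up_self, up_self, up_ne _ hj.symm]
        exact (max_eq_right (Nat.le_succ _)).symm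
      · rw [up_ne _ hxi, up_ne _ hxi]
        by_cases hx : x = j
        · subst hx
          rw [up_self]
          exact (max_eq_left (Nat.le_succ _)).symm
        · rw [up_ne _ hx]
          exact (max_self _).symm
    · intro h1; exact h1.1
  have eF : ∀ μ ∈ A, F (up μ i) = F μ +
      ∑ j, (if 0 < μ j ∧ dn μ j ∈ A then (if j = i then 0 else F (up (dn μ j) i)) else 0) := by
    intro μ hμ
    have hμ' := hμ
    rw [hA, mem_filter] at hμ'
    rw [hF _ hμ'.2 ⟨i, by rw [up_self]; omega⟩]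
    rw [← add_sum_erase _ _ (mem_univ i), ← add_sum_erase univ (fun j => if 0 < μ j ∧ dn μ j ∈ A
      then (if j = i then 0 else F (up (dn μ j) i)) else 0) (mem_univ i)]
    congr 1
    · rw [if_pos ⟨by rw [up_self]; omega, by rw [dn_up]; exact hμ'.1⟩, dn_up]
    · rw [if_pos rfl, ite_self, zero_add]
      refine sum_congr rfl fun j hj => ?_
      have hj' := ne_of_mem_erase hj
      rw [if_neg hj', dn_up_comm _ hj']
      have := hdn μ hμ j hj'
      rw [dn_up_comm _ hj'] at this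
      by_cases hc : 0 < μ j ∧ dn μ j ∈ A
      · rw [if_pos hc, if_pos (this.2 hc)]
      · rw [if_neg hc, if_neg (fun h => hc (this.1 h))]
  have eh : ∀ μ ∈ A, h μ = h (up μ i) +
      ∑ j, (if up μ j ∈ A then (if j = i then 0 else h (up μ j)) else 0) := by
    intro μ hμ
    have hμ' := hμ
    rw [hA, mem_filter] at hμ'
    rw [hh _ hμ'.1 ⟨i, hμ'.2⟩]
    rw [← add_sum_erase _ _ (mem_univ i), ← add_sum_erase univ (fun j => if up μ j ∈ A
      then (if j = i then 0 else h (up μ j)) else 0) (mem_univ i)]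
    congr 1
    · rw [if_pos hμ'.2]
    · rw [if_pos rfl, ite_self, zero_add]
      refine sum_congr rfl fun j hj => ?_
      have hj' := ne_of_mem_erase hj
      rw [if_neg hj']
      have := hup μ hμ j hj'
      by_cases hc : up μ j ∈ A
      · rw [if_pos hc, if_pos (this.2 hc)]
      · rw [if_neg hc, if_neg (fun h => hc (this.1 h))]
  have c1 : ∑ μ ∈ A, g (μ i + 1) * (F (up μ i) * h μ) =
      ∑ μ ∈ A, g (μ i + 1) * (F μ * h μ) +
      ∑ μ ∈ A, ∑ j, (if 0 < μ j ∧ dn μ j ∈ A then (if j = i then 0 else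
        g (dn μ j i + 1) * (F (up (dn μ j) i) * h μ)) else 0) := by
    rw [← sum_add_distrib]
    refine sum_congr rfl fun μ hμ => ?_
    rw [eF μ hμ, add_mul, mul_add, sum_mul, mul_sum]
    congr 1
    refine sum_congr rfl fun j _ => ?_
    by_cases hj : j = i
    · simp [hj]
    · rw [if_neg hj, if_neg hj, dn_ne _ (Ne.symm hj)]
      split_ifs <;> ring
  have c2 : ∑ μ ∈ A, g (μ i + 1) * (F (up μ i) * h μ) =
      ∑ μ ∈ A, g (μ i + 1) * (F (up μ i) * h (up μ i)) +
      ∑ μ ∈ A, ∑ j, (if up μ j ∈ A then (if j = i then 0 else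
        g (μ i + 1) * (F (up μ i) * h (up μ j))) else 0) := by
    rw [← sum_add_distrib]
    refine sum_congr rfl fun μ hμ => ?_
    conv_lhs => rw [eh μ hμ]
    rw [mul_add, mul_add, mul_sum, mul_sum]
    congr 1
    refine sum_congr rfl fun j _ => ?_
    split_ifs <;> ring
  have c3 := sum_swap A (fun μ ν j => if j = i then 0 else g (μ i + 1) * (F (up μ i) * h ν))
  rw [c3] at c1
  linarith [c1, c2]

/-- `∑ F h φ` from a downward recursion for `q`. -/
lemma sum_eq_of_rec (P : Finset (ι → ℕ)) (h0 : (0 : ι → ℕ) ∈ P)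
    (F q ψ : (ι → ℕ) → ℚ) (hF0 : F 0 = 1)
    (hF : ∀ ν ∈ P, (∃ i, 0 < ν i) →
      F ν = ∑ i, (if 0 < ν i ∧ dn ν i ∈ P then F (dn ν i) else 0))
    (hq : ∀ μ ∈ P, q μ = ψ μ + ∑ i, (if up μ i ∈ P then q (up μ i) else 0)) :
    q 0 = ∑ μ ∈ P, F μ * ψ μ := by
  have e1 : ∑ μ ∈ P, F μ * q μ = ∑ μ ∈ P, F μ * ψ μ +
      ∑ μ ∈ P, ∑ i, (if up μ i ∈ P then F μ * q (up μ i) else 0) := by
    rw [← sum_add_distrib]
    refine sum_congr rfl fun μ hμ => ?_
    conv_lhs => rw [hq μ hμ]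
    rw [mul_add, mul_sum]
    congr 1
    refine sum_congr rfl fun i _ => ?_
    split_ifs <;> ring
  have e2 := sum_swap P (fun μ ν _ => F μ * q ν)
  have e3 : ∑ ν ∈ P, F ν * q ν = q 0 +
      ∑ ν ∈ P, ∑ i, (if 0 < ν i ∧ dn ν i ∈ P then F (dn ν i) * q ν else 0) := by
    rw [← add_sum_erase _ _ h0, hF0, one_mul,
      ← add_sum_erase P (fun ν => ∑ i, (if 0 < ν i ∧ dn ν i ∈ P then F (dn ν i) * q ν else 0)) h0]
    congr 1
    have : ∑ i, (if 0 < (0 : ι → ℕ) i ∧ dn (0 : ι → ℕ) i ∈ P then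
        F (dn (0 : ι → ℕ) i) * q 0 else 0) = 0 := by
      refine sum_eq_zero fun i _ => ?_
      rw [if_neg]
      simp
    rw [this, zero_add]
    refine sum_congr rfl fun ν hν => ?_
    have hν' := mem_erase.1 hν
    have hex : ∃ i, 0 < ν i := by
      by_contra hcon
      push Not at hcon
      exact hν'.1 (funext fun i => Nat.le_zero.1 (hcon i))
    conv_lhs => rw [hF ν hν'.2 hex]
    rw [sum_mul]
    refine sum_congr rfl fun i _ => ?_
    split_ifs <;> ring
  rw [e3, e2] at e1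
  linarith

/-- The dual version: `∑ h φ` from an upward recursion with source `ψ`, where `lam` is the top. -/
lemma sum_eq_of_rec' (P : Finset (ι → ℕ)) (lam : ι → ℕ) (hl : lam ∈ P)
    (hlt : ∀ i, up lam i ∉ P)
    (G h ψ : (ι → ℕ) → ℚ) (hhl : h lam = 1)
    (hh : ∀ μ ∈ P, μ ≠ lam → h μ = ∑ i, (if up μ i ∈ P then h (up μ i) else 0))
    (hG : ∀ ν ∈ P, G ν = ψ ν + ∑ i, (if 0 < ν i ∧ dn ν i ∈ P then G (dn ν i) else 0)) :
    G lam = ∑ μ ∈ P, ψ μ * h μ := by
  have e1 : ∑ ν ∈ P, G ν * h ν = ∑ ν ∈ P, ψ ν * h ν +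
      ∑ ν ∈ P, ∑ i, (if 0 < ν i ∧ dn ν i ∈ P then G (dn ν i) * h ν else 0) := by
    rw [← sum_add_distrib]
    refine sum_congr rfl fun μ hμ => ?_
    conv_lhs => rw [hG μ hμ]
    rw [add_mul, sum_mul]
    congr 1
    refine sum_congr rfl fun i _ => ?_
    split_ifs <;> ring
  have e2 := sum_swap P (fun μ ν _ => G μ * h ν)
  have e3 : ∑ μ ∈ P, G μ * h μ = G lam +
      ∑ μ ∈ P, ∑ i, (if up μ i ∈ P then G μ * h (up μ i) else 0) := by
    rw [← add_sum_erase _ _ hl, hhl, mul_one,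
      ← add_sum_erase P (fun μ => ∑ i, (if up μ i ∈ P then G μ * h (up μ i) else 0)) hl]
    congr 1
    have : ∑ i, (if up lam i ∈ P then G lam * h (up lam i) else 0) = 0 := by
      refine sum_eq_zero fun i _ => ?_
      rw [if_neg (hlt i)]
    rw [this, zero_add]
    refine sum_congr rfl fun μ hμ => ?_
    have hμ' := mem_erase.1 hμ
    conv_lhs => rw [hh μ hμ'.2 hμ'.1]
    rw [mul_sum]
    refine sum_congr rfl fun i _ => ?_
    split_ifs <;> ring
  rw [e3, e2] at e1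
  linarith

end Pool.Agent.Lib.MP_f5b555_co
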