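import Mathlib
import Pool.Agent.Lib.MP_f5b555_co.Abs

/-!
The hook type product formula for strict partitions and its recursion.
-/

set_option linter.unusedSectionVars false

namespace Pool.Agent.Lib.MP_f5b555_co

open Finset

/-- Lagrange interpolation identity. -/
lemma lagrange_identity {ι : Type*} [DecidableEq ι] (s : Finset ι) (a b : ι → ℚ)
    (ha : Set.InjOn a s) :
    ∑ i ∈ s, (b i - a i) * ∏ j ∈ s.erase i, ((a i - b j) / (a i - a j)) =
      ∑ i ∈ s, (b i - a i) := by
  rcases s.eq_empty_or_nonempty with hs | hs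
  · subst hs; simp
  have hcard : 0 < s.card := hs.card_pos
  let P : Polynomial ℚ := Lagrange.nodal s b - Lagrange.nodal s a
  have hdeg : P.degree < s.card := by
    have h1 : (Lagrange.nodal s b).degree = (Lagrange.nodal s a).degree := by
      rw [Lagrange.degree_nodal, Lagrange.degree_nodal]
    have h2 := Polynomial.degree_sub_lt_left h1 (Lagrange.nodal_ne_zero)
      (by rw [(Lagrange.nodal_monic (s := s) (v := b)).leadingCoeff,
        (Lagrange.nodal_monic (s := s) (v := a)).leadingCoeff])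
    rw [Lagrange.degree_nodal] at h2
    exact h2
  have h3 := Lagrange.coeff_eq_sum ha hdeg
  have h4 : P.coeff (s.card - 1) = - ∑ i ∈ s, b i + ∑ i ∈ s, a i := by
    simp only [P, Polynomial.coeff_sub, Lagrange.nodal_eq]
    rw [Polynomial.prod_X_sub_C_coeff_card_pred s b hcard,
      Polynomial.prod_X_sub_C_coeff_card_pred s a hcard]
    ring
  rw [h4] at h3
  have h5 : ∑ i ∈ s, (b i - a i) * ∏ j ∈ s.erase i, ((a i - b j) / (a i - a j)) =
      - ∑ i ∈ s, (P.eval (a i)) / ∏ j ∈ s.erase i, (a i - a j) := by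
    rw [← sum_neg_distrib]
    refine sum_congr rfl fun i hi => ?_
    have e1 : P.eval (a i) = (a i - b i) * ∏ j ∈ s.erase i, (a i - b j) := by
      simp only [P, Polynomial.eval_sub, Lagrange.eval_nodal_at_node hi, sub_zero,
        Lagrange.eval_nodal]
      rw [mul_prod_erase s (fun j => a i - b j) hi]
    rw [e1, prod_div_distrib]
    ring
  rw [h5, ← h3, sum_sub_distrib]
  ring

/-- The identity behind the hook formula for strict partitions. -/
lemma strict_identity {ι : Type*} [DecidableEq ι] (s : Finset ι) (x : ι → ℕ)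
    (hx : Set.InjOn x s) (hpos : ∀ i ∈ s, 0 < x i) :
    ∑ i ∈ s, (x i : ℚ) * ∏ j ∈ s.erase i,
      (((x i : ℚ) - x j - 1) * ((x i : ℚ) + x j) / (((x i : ℚ) - x j) * ((x i : ℚ) + x j - 1))) =
      ∑ i ∈ s, (x i : ℚ) := by
  have hne : ∀ i ∈ s, ∀ j ∈ s, i ≠ j → (x i : ℚ) - x j ≠ 0 := by
    intro i hi j hj hij h
    apply hij
    apply hx hi hj
    have : (x i : ℚ) = x j := by linarith
    exact_mod_cast this
  have hne2 : ∀ i ∈ s, ∀ j ∈ s, (x i : ℚ) + x j - 1 ≠ 0 := by
    intro i hi j hj h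
    have h1 : (1 : ℚ) ≤ x i := by exact_mod_cast hpos i hi
    have h2 : (1 : ℚ) ≤ x j := by exact_mod_cast hpos j hj
    linarith
  have h := lagrange_identity s (fun i => (x i : ℚ) * ((x i : ℚ) - 1))
    (fun i => (x i : ℚ) * ((x i : ℚ) + 1)) (by
      intro i hi j hj hij
      by_contra hcon
      have h1 := hne i hi j hj hcon
      have h2 := hne2 i hi j hj
      have h3 : ((x i : ℚ) - x j) * ((x i : ℚ) + x j - 1) = 0 := by
        simp only at hij
        linear_combination hij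
      rcases mul_eq_zero.1 h3 with h4 | h4
      · exact h1 h4
      · exact h2 h4)
  have h6 : ∀ i ∈ s, ∀ j ∈ s.erase i,
      ((x i : ℚ) - x j - 1) * ((x i : ℚ) + x j) / (((x i : ℚ) - x j) * ((x i : ℚ) + x j - 1)) =
      ((x i : ℚ) * ((x i : ℚ) - 1) - (x j : ℚ) * ((x j : ℚ) + 1)) /
        ((x i : ℚ) * ((x i : ℚ) - 1) - (x j : ℚ) * ((x j : ℚ) - 1)) := by
    intro i _ j _
    congr 1 <;> ring
  have h7 : ∀ i ∈ s, (x i : ℚ) * ∏ j ∈ s.erase i,
      (((x i : ℚ) - x j - 1) * ((x i : ℚ) + x j) / (((x i : ℚ) - x j) * ((x i : ℚ) + x j - 1))) =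
      (1 / 2) * (((x i : ℚ) * ((x i : ℚ) + 1) - (x i : ℚ) * ((x i : ℚ) - 1)) *
        ∏ j ∈ s.erase i, (((x i : ℚ) * ((x i : ℚ) - 1) - (x j : ℚ) * ((x j : ℚ) + 1)) /
        ((x i : ℚ) * ((x i : ℚ) - 1) - (x j : ℚ) * ((x j : ℚ) - 1)))) := by
    intro i hi
    rw [prod_congr rfl (h6 i hi)]
    ring
  rw [sum_congr rfl h7, ← mul_sum]
  rw [h, mul_sum]
  refine sum_congr rfl fun i _ => ?_
  ring

/-- The pair factor. -/
def theta (a b : ℕ) : ℚ := if b = 0 then 1 else ((a : ℚ) - b) / ((a : ℚ) + b)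

/-- The ratio factor. -/
def rho (x y : ℕ) : ℚ :=
  if y = 0 then 1 else
    ((x : ℚ) - y - 1) * ((x : ℚ) + y) / (((x : ℚ) - y) * ((x : ℚ) + y - 1))

lemma theta_pred_left {x y : ℕ} (hx : 0 < x) (hy : y = 0 ∨ y < x) :
    theta (x - 1) y = theta x y * rho x y := by
  unfold theta rho
  by_cases h0 : y = 0
  · simp [h0]
  · have hyx : y < x := hy.resolve_left h0
    rw [if_neg h0, if_neg h0, if_neg h0]
    have h1 : (1 : ℚ) ≤ y := by
      have : 1 ≤ y := Nat.one_le_iff_ne_zero.2 h0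
      exact_mod_cast this
    have h2 : (y : ℚ) < x := by exact_mod_cast hyx
    rw [Nat.cast_sub hx, Nat.cast_one]
    have h3 : (x : ℚ) - y ≠ 0 := by linarith
    have h4 : (x : ℚ) + y ≠ 0 := by linarith
    have h5 : (x : ℚ) + y - 1 ≠ 0 := by linarith
    have h6 : (x : ℚ) - 1 + y ≠ 0 := by linarith
    field_simp
    ring

lemma theta_pred_right {x y : ℕ} (hx : 0 < x) (hy : x < y) :
    theta y (x - 1) = theta y x * rho x y := by
  unfold theta rho
  have h0 : y ≠ 0 := by omega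
  have hx0 : x ≠ 0 := by omega
  rw [if_neg h0, if_neg hx0]
  have h1 : (1 : ℚ) ≤ x := by exact_mod_cast hx
  have h2 : (x : ℚ) < y := by exact_mod_cast hy
  have h3 : (x : ℚ) - y ≠ 0 := by linarith
  have h4 : (x : ℚ) + y ≠ 0 := by linarith
  have h5 : (x : ℚ) + y - 1 ≠ 0 := by linarith
  have h6 : (y : ℚ) + x ≠ 0 := by linarith
  by_cases hx1 : x = 1
  · subst hx1
    simp only [Nat.sub_self, if_true]
    push_cast
    have h7 : (1 : ℚ) - y ≠ 0 := by push_cast at h3; exact h3
    have h8 : (y : ℚ) + 1 ≠ 0 := by push_cast at h6; exact h6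
    have h9 : (y : ℚ) ≠ 0 := by exact_mod_cast h0
    have h10 : (1 : ℚ) + y - 1 ≠ 0 := by push_cast at h5; exact h5
    field_simp
    ring
  · rw [if_neg (by omega), Nat.cast_sub hx, Nat.cast_one]
    have h7 : (y : ℚ) + (x - 1) ≠ 0 := by linarith
    field_simp
    ring

/-- Product over ordered pairs. -/
def pairs (m : ℕ) : Finset (Fin m × Fin m) := univ.filter (fun p => p.1 < p.2)

/-- The number of saturated chains from `0` to `μ`, by formula. -/
def Fh {m : ℕ} (μ : Fin m → ℕ) : ℚ :=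
  ((∑ i, μ i).factorial : ℚ) / (∏ i, ((μ i).factorial : ℚ)) *
    ∏ p ∈ pairs m, theta (μ p.1) (μ p.2)

/-- Strictness. -/
def Strict {m : ℕ} (μ : Fin m → ℕ) : Prop := ∀ i j : Fin m, i < j → μ j = 0 ∨ μ j < μ i

lemma Fh_zero {m : ℕ} : Fh (0 : Fin m → ℕ) = 1 := by
  simp [Fh, theta]

/-- Splitting a product over pairs. -/
lemma prod_pairs_split {m : ℕ} (i : Fin m) (f : Fin m × Fin m → ℚ) :
    ∏ p ∈ pairs m, f p =
      (∏ p ∈ (pairs m).filter (fun p => ¬ (p.1 = i ∨ p.2 = i)), f p) *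
        ∏ j ∈ univ.erase i, (if i < j then f (i, j) else f (j, i)) := by
  rw [← prod_filter_not_mul_prod_filter (pairs m) (fun p => p.1 = i ∨ p.2 = i) f]
  congr 1
  symm
  refine prod_bij' (fun j _ => if i < j then (i, j) else (j, i))
    (fun p _ => if p.1 = i then p.2 else p.1) ?_ ?_ ?_ ?_ ?_
  · intro j hj
    have hj' := ne_of_mem_erase hj
    simp only [mem_filter, pairs, mem_univ, true_and]
    split_ifs with h
    · exact ⟨h, Or.inl rfl⟩
    · exact ⟨lt_of_le_of_ne (not_lt.1 h) hj', Or.inr rfl⟩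
  · intro p hp
    simp only [mem_filter, pairs, mem_univ, true_and] at hp
    rw [mem_erase]
    refine ⟨?_, mem_univ _⟩
    split_ifs with h
    · rw [← h]; exact ne_of_gt hp.1
    · exact h
  · intro j hj
    have hj' := ne_of_mem_erase hj
    by_cases h : i < j
    · simp [h]
    · simp [h, hj']
  · intro p hp
    simp only [mem_filter, pairs, mem_univ, true_and] at hp
    by_cases h : p.1 = i
    · have h2 : i < p.2 := h ▸ hp.1
      simp only [h, if_true, h2]
      exact Prod.ext h.symm rfl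
    · have h2 : p.2 = i := hp.2.resolve_left h
      have h3 : ¬ (i < p.1) := by rw [← h2]; exact not_lt.2 hp.1.le
      simp only [h, if_false, h3]
      exact Prod.ext rfl h2.symm
  · intro j hj
    split_ifs <;> rfl

lemma factorial_pred (x : ℕ) (hx : 0 < x) : (x.factorial : ℚ) = x * ((x - 1).factorial : ℚ) := by
  have := Nat.mul_factorial_pred (Nat.pos_iff_ne_zero.1 hx)
  rw [← this]; push_cast; ring

/-- The effect of removing a box. -/
lemma Fh_dn {m : ℕ} (μ : Fin m → ℕ) (hμ : Strict μ) (i : Fin m) (hi : 0 < μ i) :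
    Fh (dn μ i) * ((∑ j, μ j : ℕ) : ℚ) =
      Fh μ * ((μ i : ℚ) * ∏ j ∈ univ.erase i, rho (μ i) (μ j)) := by
  have hsum : (∑ j, μ j) = μ i + ∑ j ∈ univ.erase i, μ j :=
    (add_sum_erase univ μ (mem_univ i)).symm
  have hsum2 : (∑ j, dn μ i j) = (μ i - 1) + ∑ j ∈ univ.erase i, μ j := by
    rw [← add_sum_erase univ _ (mem_univ i), dn_self]
    congr 1
    exact sum_congr rfl fun j hj => dn_ne _ (ne_of_mem_erase hj)
  have hsum3 : (∑ j, dn μ i j) = (∑ j, μ j) - 1 := by omega
  have hpos : 0 < ∑ j, μ j := by omega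
  have hfac : ∏ j, ((dn μ i j).factorial : ℚ) * 1 =
      ((μ i - 1).factorial : ℚ) * ∏ j ∈ univ.erase i, ((μ j).factorial : ℚ) := by
    rw [← mul_prod_erase univ _ (mem_univ i), dn_self, mul_one]
    congr 1
    refine prod_congr rfl fun j hj => ?_
    rw [dn_ne _ (ne_of_mem_erase hj), mul_one]
  simp only [mul_one] at hfac
  have hfac2 : ∏ j, ((μ j).factorial : ℚ) =
      ((μ i : ℚ) * ((μ i - 1).factorial : ℚ)) * ∏ j ∈ univ.erase i, ((μ j).factorial : ℚ) := by
    rw [← mul_prod_erase univ _ (mem_univ i), factorial_pred _ hi]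
  have hth : ∏ p ∈ pairs m, theta (dn μ i p.1) (dn μ i p.2) =
      (∏ p ∈ pairs m, theta (μ p.1) (μ p.2)) * ∏ j ∈ univ.erase i, rho (μ i) (μ j) := by
    rw [prod_pairs_split i, prod_pairs_split i (fun p => theta (μ p.1) (μ p.2)), mul_assoc,
      ← prod_mul_distrib]
    congr 1
    · refine prod_congr rfl fun p hp => ?_
      rw [mem_filter, not_or] at hp
      rw [dn_ne _ hp.2.1, dn_ne _ hp.2.2]
    · refine prod_congr rfl fun j hj => ?_
      have hj' := ne_of_mem_erase hj
      by_cases h : i < j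
      · simp only [h, if_true]
        rw [dn_self, dn_ne _ hj']
        exact theta_pred_left hi (hμ i j h)
      · simp only [h, if_false]
        rw [dn_self, dn_ne _ hj']
        have hji : j < i := lt_of_le_of_ne (not_lt.1 h) hj'
        have h1 := hμ j i hji
        exact theta_pred_right hi (h1.resolve_left (by omega))
  unfold Fh
  rw [hth, hfac, hfac2, hsum3, factorial_pred _ hpos]
  have h1 : ((μ i - 1).factorial : ℚ) ≠ 0 := by exact_mod_cast Nat.factorial_ne_zero _
  have h2 : ∏ j ∈ univ.erase i, ((μ j).factorial : ℚ) ≠ 0 :=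
    prod_ne_zero_iff.2 fun j _ => by exact_mod_cast Nat.factorial_ne_zero _
  have h3 : (μ i : ℚ) ≠ 0 := by exact_mod_cast hi.ne'
  field_simp

/-- Summed over all rows, the formula satisfies the recursion. -/
lemma Fh_rec_all {m : ℕ} (μ : Fin m → ℕ) (hμ : Strict μ) (hex : ∃ i, 0 < μ i) :
    Fh μ = ∑ i, (if 0 < μ i then Fh (dn μ i) else 0) := by
  have hpos : 0 < ∑ j, μ j := by
    obtain ⟨i, hi⟩ := hex
    exact lt_of_lt_of_le hi (single_le_sum (fun j _ => Nat.zero_le (μ j)) (mem_univ i))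
  have hne : ((∑ j, μ j : ℕ) : ℚ) ≠ 0 := by exact_mod_cast hpos.ne'
  have hinj : Set.InjOn μ ((univ.filter fun i => 0 < μ i : Finset (Fin m)) : Set (Fin m)) := by
    intro i hi j hj hij
    simp only [coe_filter, mem_univ, true_and, Set.mem_ofPred_eq] at hi hj
    by_contra hcon
    rcases lt_or_gt_of_ne hcon with h | h
    · rcases hμ i j h with h1 | h1 <;> omega
    · rcases hμ j i h with h1 | h1 <;> omega
  have key := strict_identity (univ.filter fun i => 0 < μ i) μ hinj
    (fun i hi => (mem_filter.1 hi).2)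
  have e1 : ∑ i ∈ univ.filter (fun i => 0 < μ i), (μ i : ℚ) = ((∑ j, μ j : ℕ) : ℚ) := by
    push_cast
    rw [sum_filter]
    refine sum_congr rfl fun i _ => ?_
    split_ifs with h
    · rfl
    · have : μ i = 0 := by omega
      simp [this]
  have e2 : ∀ i, ∏ j ∈ univ.erase i, rho (μ i) (μ j) =
      ∏ j ∈ (univ.filter fun i => 0 < μ i).erase i,
      (((μ i : ℚ) - μ j - 1) * ((μ i : ℚ) + μ j) /
        (((μ i : ℚ) - μ j) * ((μ i : ℚ) + μ j - 1))) := by
    intro i
    have : (univ.filter fun i => 0 < μ i).erase i =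
        (univ.erase i).filter (fun j => 0 < μ j) := by
      ext j
      simp [and_comm]
    rw [this, prod_filter]
    refine prod_congr rfl fun j _ => ?_
    unfold rho
    by_cases h : μ j = 0
    · rw [if_pos h, if_neg (by omega)]
    · rw [if_neg h, if_pos (by omega)]
  apply mul_right_cancel₀ hne
  rw [sum_mul]
  have e3 : ∀ i, (if 0 < μ i then Fh (dn μ i) else 0) * ((∑ j, μ j : ℕ) : ℚ) =
      (if 0 < μ i then Fh μ * ((μ i : ℚ) * ∏ j ∈ (univ.filter fun i => 0 < μ i).erase i,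
      (((μ i : ℚ) - μ j - 1) * ((μ i : ℚ) + μ j) /
        (((μ i : ℚ) - μ j) * ((μ i : ℚ) + μ j - 1)))) else 0) := by
    intro i
    split_ifs with h
    · rw [Fh_dn μ hμ i h, e2]
    · rw [zero_mul]
  rw [sum_congr rfl fun i _ => e3 i, ← sum_filter, ← mul_sum, key, e1]

/-- The formula vanishes on the non strict functions obtained by removing a box. -/
lemma Fh_dn_eq_zero {m : ℕ} (μ : Fin m → ℕ) (hμ : Strict μ) (i : Fin m)
    (hn : ¬ Strict (dn μ i)) : Fh (dn μ i) = 0 := by
  unfold Strict at hn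
  push Not at hn
  obtain ⟨a, b, hab, hb0, hba⟩ := hn
  have hai : a = i := by
    by_contra hcon
    rw [dn_ne _ hcon] at hba
    have h1 : dn μ i b ≤ μ b := by
      by_cases hb : b = i
      · subst hb; rw [dn_self]; omega
      · rw [dn_ne _ hb]
    rcases hμ a b hab with h | h <;> omega
  subst hai
  have hbi : b ≠ a := ne_of_gt hab
  rw [dn_ne _ hbi] at hb0 hba
  rw [dn_self] at hba
  have h2 := (hμ a b hab).resolve_left hb0
  have h3 : μ a - 1 = μ b := by omega
  unfold Fh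
  have : ∏ p ∈ pairs m, theta (dn μ a p.1) (dn μ a p.2) = 0 := by
    refine prod_eq_zero (i := (a, b)) (by simp [pairs, hab]) ?_
    simp only
    rw [dn_self, dn_ne _ hbi, h3, theta, if_neg hb0, sub_self, zero_div]
  rw [this, mul_zero]

lemma Fh_rec {m : ℕ} (μ : Fin m → ℕ) (hμ : Strict μ) (hex : ∃ i, 0 < μ i)
    (Q : Fin m → Prop) [DecidablePred Q] (hQ : ∀ i, Q i ↔ (0 < μ i ∧ Strict (dn μ i))) :
    Fh μ = ∑ i, (if Q i then Fh (dn μ i) else 0) := by
  rw [Fh_rec_all μ hμ hex]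
  refine sum_congr rfl fun i _ => ?_
  by_cases h : 0 < μ i
  · rw [if_pos h]
    by_cases h2 : Strict (dn μ i)
    · rw [if_pos ((hQ i).2 ⟨h, h2⟩)]
    · rw [if_neg (fun h3 => h2 ((hQ i).1 h3).2), Fh_dn_eq_zero μ hμ i h2]
  · rw [if_neg h, if_neg (fun h3 => h ((hQ i).1 h3).1)]

end Pool.Agent.Lib.MP_f5b555_co
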