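import Mathlib
import Pool.Agent.Lib.MP_f5b555_co.Hook

/-!
The auxiliary weight obtained by appending one more row of length one.
-/

set_option linter.unusedSectionVars false

namespace Pool.Agent.Lib.MP_f5b555_co

open Finset

lemma prod_pairs_eq {m : ℕ} (f : Fin m × Fin m → ℚ) :
    ∏ p ∈ pairs m, f p = ∏ i, ∏ j, (if i < j then f (i, j) else 1) := by
  unfold pairs
  rw [prod_filter, ← univ_product_univ, prod_product]

lemma prod_pairs_succ {m : ℕ} (f : Fin (m + 1) × Fin (m + 1) → ℚ) :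
    ∏ p ∈ pairs (m + 1), f p =
      (∏ p ∈ pairs m, f (p.1.castSucc, p.2.castSucc)) * ∏ i : Fin m, f (i.castSucc, Fin.last m) := by
  rw [prod_pairs_eq, prod_pairs_eq, Fin.prod_univ_castSucc]
  have h1 : ∏ j : Fin (m + 1), (if Fin.last m < j then f (Fin.last m, j) else 1) = 1 :=
    prod_eq_one fun j _ => if_neg (not_lt.2 (Fin.le_last j))
  rw [h1, mul_one, ← prod_mul_distrib]
  refine prod_congr rfl fun i _ => ?_
  rw [Fin.prod_univ_castSucc]
  congr 1
  rw [if_pos (Fin.castSucc_lt_last i)]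

/-- Append one row of length `c`. -/
def app {m : ℕ} (μ : Fin m → ℕ) (c : ℕ) : Fin (m + 1) → ℕ := Fin.snoc (α := fun _ => ℕ) μ c

@[simp] lemma app_castSucc {m : ℕ} (μ : Fin m → ℕ) (c : ℕ) (i : Fin m) :
    app μ c i.castSucc = μ i := by simp [app]

@[simp] lemma app_last {m : ℕ} (μ : Fin m → ℕ) (c : ℕ) : app μ c (Fin.last m) = c := by
  simp [app]

lemma app_ext {m : ℕ} {f g : Fin (m + 1) → ℕ} (h : ∀ i : Fin m, f i.castSucc = g i.castSucc)
    (hl : f (Fin.last m) = g (Fin.last m)) : f = g := by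
  funext i
  refine Fin.lastCases hl (fun i => h i) i

lemma Fh_app_zero {m : ℕ} (μ : Fin m → ℕ) : Fh (app μ 0) = Fh μ := by
  unfold Fh
  rw [prod_pairs_succ, Fin.sum_univ_castSucc, Fin.prod_univ_castSucc]
  simp [theta]

lemma Fh_app_one {m : ℕ} (μ : Fin m → ℕ) :
    Fh (app μ 1) = (((∑ i, μ i : ℕ) : ℚ) + 1) *
      (∏ i, (((μ i : ℚ) - 1) / ((μ i : ℚ) + 1))) * Fh μ := by
  unfold Fh
  rw [prod_pairs_succ, Fin.sum_univ_castSucc, Fin.prod_univ_castSucc]
  simp only [app_castSucc, app_last, Nat.factorial_one, Nat.cast_one, mul_one, theta,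
    one_ne_zero, if_false]
  rw [Nat.factorial_succ]
  push_cast
  ring

lemma dn_app_castSucc {m : ℕ} (μ : Fin m → ℕ) (c : ℕ) (i : Fin m) :
    dn (app μ c) i.castSucc = app (dn μ i) c := by
  refine app_ext (fun j => ?_) ?_
  · by_cases h : j = i
    · subst h; simp
    · rw [dn_ne _ (fun h2 => h (Fin.castSucc_injective _ h2)), app_castSucc, app_castSucc,
        dn_ne _ h]
  · rw [dn_ne _ (Fin.castSucc_lt_last i).ne', app_last, app_last]

lemma dn_app_last {m : ℕ} (μ : Fin m → ℕ) (c : ℕ) :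
    dn (app μ c) (Fin.last m) = app μ (c - 1) := by
  refine app_ext (fun j => ?_) ?_
  · rw [dn_ne _ (Fin.castSucc_lt_last j).ne, app_castSucc, app_castSucc]
  · simp

/-- The auxiliary weight. -/
def Fp {k : ℕ} (μ : Fin (k + 1) → ℕ) : ℚ :=
  if 2 ≤ μ (Fin.last k) then Fh (app μ 1) else 0

lemma strict_app {k : ℕ} (μ : Fin (k + 1) → ℕ) (hμ : Strict μ) (h2 : 2 ≤ μ (Fin.last k)) :
    Strict (app μ 1) := by
  have hge : ∀ i, 2 ≤ μ i := by
    intro i
    by_cases h : i = Fin.last k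
    · rw [h]; exact h2
    · have := hμ i (Fin.last k) (lt_of_le_of_ne (Fin.le_last i) h)
      omega
  intro i j hij
  induction j using Fin.lastCases with
  | last =>
    right
    rw [app_last]
    induction i using Fin.lastCases with
    | last => exact absurd hij (lt_irrefl _)
    | cast i => rw [app_castSucc]; have := hge i; omega
  | cast j =>
    induction i using Fin.lastCases with
    | last => exact absurd hij (not_lt.2 (Fin.le_last _))
    | cast i =>
      rw [app_castSucc, app_castSucc]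
      exact hμ i j (Fin.castSucc_lt_castSucc_iff.1 hij)

lemma strict_of_strict_app {m : ℕ} (μ : Fin m → ℕ) (c : ℕ) (h : Strict (app μ c)) :
    Strict μ := by
  intro i j hij
  have := h i.castSucc j.castSucc (Fin.castSucc_lt_castSucc_iff.2 hij)
  rwa [app_castSucc, app_castSucc] at this

lemma Fp_rec {k : ℕ} (μ : Fin (k + 1) → ℕ) (hμ : Strict μ)
    (Q : Fin (k + 1) → Prop) [DecidablePred Q] (hQ : ∀ i, Q i ↔ (0 < μ i ∧ Strict (dn μ i))) :
    Fp μ = (if 2 ≤ μ (Fin.last k) then Fh μ else 0) +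
      ∑ i, (if Q i then Fp (dn μ i) else 0) := by
  by_cases h2 : 2 ≤ μ (Fin.last k)
  · have hs := strict_app μ hμ h2
    have hge : ∀ i, 2 ≤ μ i := by
      intro i
      by_cases h : i = Fin.last k
      · rw [h]; exact h2
      · have := hμ i (Fin.last k) (lt_of_le_of_ne (Fin.le_last i) h)
        omega
    rw [if_pos h2]
    have e1 : Fp μ = Fh (app μ 1) := if_pos h2
    rw [e1, Fh_rec_all (app μ 1) hs ⟨Fin.last _, by simp⟩, Fin.sum_univ_castSucc, app_last,
      if_pos Nat.one_pos, dn_app_last, Nat.sub_self, Fh_app_zero, add_comm]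
    congr 1
    refine sum_congr rfl fun i _ => ?_
    have hi : 0 < μ i := by have := hge i; omega
    rw [app_castSucc, if_pos hi]
    by_cases hq : Strict (dn μ i)
    · rw [if_pos ((hQ i).2 ⟨hi, hq⟩)]
      unfold Fp
      by_cases h3 : 2 ≤ dn μ i (Fin.last k)
      · rw [if_pos h3, dn_app_castSucc]
      · rw [if_neg h3]
        apply Fh_dn_eq_zero _ hs
        intro h4
        rw [dn_app_castSucc] at h4
        have h5 := h4 (Fin.last k).castSucc (Fin.last (k + 1)) (Fin.castSucc_lt_last _)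
        rw [app_castSucc, app_last] at h5
        omega
    · rw [if_neg (fun h3 => hq ((hQ i).1 h3).2)]
      apply Fh_dn_eq_zero _ hs
      intro h4
      rw [dn_app_castSucc] at h4
      exact hq (strict_of_strict_app _ _ h4)
  · have e1 : Fp μ = 0 := if_neg h2
    rw [e1, if_neg h2, zero_add]
    symm
    refine sum_eq_zero fun i _ => ?_
    have : Fp (dn μ i) = 0 := by
      apply if_neg
      by_cases h : Fin.last k = i
      · subst h; rw [dn_self]; omega
      · rw [dn_ne _ h]; exact h2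
    rw [this, ite_self]

lemma telescope (n : ℕ) (m : ℕ) (hm : 2 * m ≤ n + 1) :
    ∏ i ∈ range m, ((((n - 2 * i : ℕ) : ℚ) - 1) / (((n - 2 * i : ℕ) : ℚ) + 1)) =
      ((n : ℚ) - 2 * m + 1) / ((n : ℚ) + 1) := by
  induction m with
  | zero =>
    have : (n : ℚ) + 1 ≠ 0 := by positivity
    simp [this]
  | succ m ih =>
    rw [prod_range_succ, ih (by omega), Nat.cast_sub (by omega)]
    have h1 : (n : ℚ) + 1 ≠ 0 := by positivity
    have h2 : (n : ℚ) - 2 * m + 1 ≠ 0 := by
      have : (2 * m : ℚ) ≤ n := by exact_mod_cast (by omega : 2 * m ≤ n)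
      intro h; linarith
    push_cast
    field_simp
    ring

/-- The value at the top. -/
lemma Fp_top (n k : ℕ) (hk : 2 * k < n) :
    Fp (fun i : Fin (k + 1) => n - 2 * (i : ℕ)) =
      (((∑ i : Fin (k + 1), (n - 2 * (i : ℕ)) : ℕ) : ℚ) + 1) *
        (((n : ℚ) - 2 * k - 1) / ((n : ℚ) + 1)) * Fh (fun i : Fin (k + 1) => n - 2 * (i : ℕ)) := by
  have h1 : ∏ i : Fin (k + 1), ((((n - 2 * (i : ℕ) : ℕ) : ℚ) - 1) /
      (((n - 2 * (i : ℕ) : ℕ) : ℚ) + 1)) = ((n : ℚ) - 2 * k - 1) / ((n : ℚ) + 1) := by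
    rw [Fin.prod_univ_eq_prod_range (fun i => (((n - 2 * i : ℕ) : ℚ) - 1) /
      (((n - 2 * i : ℕ) : ℚ) + 1)) (k + 1), telescope n (k + 1) (by omega)]
    congr 1
    push_cast
    ring
  by_cases h2 : 2 ≤ n - 2 * k
  · have e1 : Fp (fun i : Fin (k + 1) => n - 2 * (i : ℕ)) =
        Fh (app (fun i : Fin (k + 1) => n - 2 * (i : ℕ)) 1) := if_pos (by simpa using h2)
    rw [e1, Fh_app_one, h1]
  · have e1 : Fp (fun i : Fin (k + 1) => n - 2 * (i : ℕ)) = 0 := if_neg (by simpa using h2)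
    have h3 : n = 2 * k + 1 := by omega
    rw [e1, h3]
    push_cast
    ring

end Pool.Agent.Lib.MP_f5b555_co
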