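import Mathlib
import Pool.Agent.Lib.MP_f5b555_co.Plus

/-!
Counting strict partitions inside a trapezoid.
-/

set_option linter.unusedSectionVars false

namespace Pool.Agent.Lib.MP_f5b555_co

open Finset
open scoped Classical

/-- Strictly decreasing sequences with entries at least `c`. -/
noncomputable def DS (n c m : ℕ) : Finset (Fin m → ℕ) :=
  (Fintype.piFinset fun i : Fin m => Icc c (n - 2 * (i : ℕ))).filter
    (fun μ => ∀ i j : Fin m, i < j → μ j < μ i)

lemma mem_DS {n c m : ℕ} {μ : Fin m → ℕ} : μ ∈ DS n c m ↔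
    (∀ i, c ≤ μ i ∧ μ i ≤ n - 2 * (i : ℕ)) ∧ ∀ i j : Fin m, i < j → μ j < μ i := by
  simp [DS, Fintype.mem_piFinset]

/-- The strict partitions inside the trapezoid. -/
noncomputable def VS (n m : ℕ) : Finset (Fin m → ℕ) :=
  (Fintype.piFinset fun i : Fin m => Icc 0 (n - 2 * (i : ℕ))).filter Strict

lemma mem_VS {n m : ℕ} {μ : Fin m → ℕ} : μ ∈ VS n m ↔
    (∀ i, μ i ≤ n - 2 * (i : ℕ)) ∧ Strict μ := by
  simp [VS, Fintype.mem_piFinset]

lemma DS_zero (n c : ℕ) : (DS n c 0).card = 1 := by
  have : DS n c 0 = univ := by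
    ext μ
    rw [mem_DS]
    exact ⟨fun _ => mem_univ _, fun _ => ⟨fun i => i.elim0, fun i => i.elim0⟩⟩
  rw [this]
  simp

/-- Restriction to the first rows. -/
def res {m : ℕ} (μ : Fin (m + 1) → ℕ) : Fin m → ℕ := fun i => μ i.castSucc

lemma app_res {m : ℕ} (μ : Fin (m + 1) → ℕ) : app (res μ) (μ (Fin.last m)) = μ :=
  app_ext (fun i => by simp [res]) (by simp)

lemma res_app {m : ℕ} (μ : Fin m → ℕ) (c : ℕ) : res (app μ c) = μ := by
  funext i; simp [res]

lemma DS_succ (n c m : ℕ) (hc : c + 2 * m ≤ n) :
    (DS n c (m + 1)).card = (DS n (c + 1) (m + 1)).card + (DS n (c + 1) m).card := by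
  rw [← card_filter_add_card_filter_not (s := DS n c (m + 1)) (fun μ => c + 1 ≤ μ (Fin.last m))]
  congr 1
  · congr 1
    ext μ
    rw [mem_filter, mem_DS, mem_DS]
    constructor
    · rintro ⟨⟨h1, h2⟩, h3⟩
      refine ⟨fun i => ⟨?_, (h1 i).2⟩, h2⟩
      by_cases h : i = Fin.last m
      · rw [h]; exact h3
      · have := h2 i (Fin.last m) (lt_of_le_of_ne (Fin.le_last i) h)
        omega
    · rintro ⟨h1, h2⟩
      exact ⟨⟨fun i => ⟨by have := (h1 i).1; omega, (h1 i).2⟩, h2⟩, (h1 _).1⟩
  · refine card_bij' (fun μ _ => res μ) (fun μ _ => app μ c) ?_ ?_ ?_ ?_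
    · intro μ hμ
      rw [mem_filter, mem_DS] at hμ
      obtain ⟨⟨h1, h2⟩, h3⟩ := hμ
      rw [mem_DS]
      refine ⟨fun i => ⟨?_, (h1 i.castSucc).2⟩, fun i j hij =>
        h2 _ _ (Fin.castSucc_lt_castSucc_iff.2 hij)⟩
      have h4 := h2 i.castSucc (Fin.last m) (Fin.castSucc_lt_last i)
      have h5 := (h1 (Fin.last m)).1
      change c + 1 ≤ μ i.castSucc
      omega
    · intro μ hμ
      rw [mem_DS] at hμ
      obtain ⟨h1, h2⟩ := hμ
      rw [mem_filter, mem_DS]
      refine ⟨⟨fun i => ?_, fun i j hij => ?_⟩, ?_⟩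
      · induction i using Fin.lastCases with
        | last => rw [app_last, Fin.val_last]; omega
        | cast i =>
          rw [app_castSucc]
          have := h1 i
          rw [Fin.val_castSucc]
          omega
      · induction j using Fin.lastCases with
        | last =>
          rw [app_last]
          induction i using Fin.lastCases with
          | last => exact absurd hij (lt_irrefl _)
          | cast i => rw [app_castSucc]; have := (h1 i).1; omega
        | cast j =>
          induction i using Fin.lastCases with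
          | last => exact absurd hij (not_lt.2 (Fin.le_last _))
          | cast i =>
            rw [app_castSucc, app_castSucc]
            exact h2 i j (Fin.castSucc_lt_castSucc_iff.1 hij)
      · rw [app_last]; omega
    · intro μ hμ
      rw [mem_filter, mem_DS] at hμ
      have h3 : μ (Fin.last m) = c := by
        have := (hμ.1.1 (Fin.last m)).1
        omega
      conv_rhs => rw [← app_res μ, h3]
    · intro μ _
      exact res_app μ c

lemma DS_empty (n c m : ℕ) (hc : n < c + 2 * m) (hc1 : 1 ≤ c) : (DS n c (m + 1)).card = 0 := by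
  rw [card_eq_zero, eq_empty_iff_forall_notMem]
  intro μ hμ
  rw [mem_DS] at hμ
  have := hμ.1 (Fin.last m)
  rw [Fin.val_last] at this
  omega

/-- The ballot numbers. -/
lemma DS_card (n : ℕ) (d : ℕ) (hd : 1 ≤ d) (hdn : d ≤ n + 1) (m : ℕ) (hm : 2 * m + 1 ≤ d) :
    (DS n (n + 2 - d) (m + 1)).card + d.choose m = d.choose (m + 1) := by
  induction d, hd using Nat.le_induction generalizing m with
  | base =>
    have : m = 0 := by omega
    subst this
    rw [DS_empty n _ 0 (by omega) (by omega)]
    simp
  | succ d hd ih =>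
    by_cases h : 2 * m + 1 = d + 1
    · have hd2 : d = 2 * m := by omega
      rw [DS_empty n _ m (by omega) (by omega), hd2, zero_add]
      exact (Nat.choose_symm_half m).symm
    · have hc : n + 2 - (d + 1) + 1 = n + 2 - d := by omega
      rw [DS_succ n _ m (by omega), hc]
      have h1 := ih (by omega) m (by omega)
      rw [Nat.choose_succ_succ d m]
      cases m with
      | zero =>
        rw [DS_zero]
        simp only [Nat.choose_zero_right, zero_add, Nat.choose_one_right] at h1 ⊢
        omega
      | succ m =>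
        have h2 := ih (by omega) m (by omega)
        rw [Nat.choose_succ_succ d m]
        simp only [Nat.succ_eq_add_one] at h1 h2 ⊢
        omega

lemma VS_zero (n : ℕ) : (VS n 0).card = 1 := by
  have : VS n 0 = univ := by
    ext μ
    rw [mem_VS]
    exact ⟨fun _ => mem_univ _, fun _ => ⟨fun i => i.elim0, fun i => i.elim0⟩⟩
  rw [this]
  simp

lemma VS_filter_ge (n c m : ℕ) (hc : 1 ≤ c) :
    (VS n (m + 1)).filter (fun μ => c ≤ μ (Fin.last m)) = DS n c (m + 1) := by
  ext μ
  rw [mem_filter, mem_VS, mem_DS]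
  constructor
  · rintro ⟨⟨h1, h2⟩, h3⟩
    have hge : ∀ i, c ≤ μ i := by
      intro i
      by_cases h : i = Fin.last m
      · rw [h]; exact h3
      · have := h2 i (Fin.last m) (lt_of_le_of_ne (Fin.le_last i) h)
        omega
    refine ⟨fun i => ⟨hge i, h1 i⟩, fun i j hij => ?_⟩
    rcases h2 i j hij with h | h
    · have := hge j; omega
    · exact h
  · rintro ⟨h1, h2⟩
    exact ⟨⟨fun i => (h1 i).2, fun i j hij => Or.inr (h2 i j hij)⟩, (h1 _).1⟩

lemma VS_card (n m : ℕ) (hm : 2 * m ≤ n + 1) : (VS n m).card = (n + 1).choose m := by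
  induction m with
  | zero => rw [VS_zero]; simp
  | succ m ih =>
    rw [← card_filter_add_card_filter_not (s := VS n (m + 1)) (fun μ => 1 ≤ μ (Fin.last m)),
      VS_filter_ge n 1 m le_rfl]
    have h1 := DS_card n (n + 1) (by omega) le_rfl m (by omega)
    have h2 : n + 2 - (n + 1) = 1 := by omega
    rw [h2] at h1
    rw [← h1, ← ih (by omega)]
    congr 1
    refine card_bij' (fun μ _ => res μ) (fun μ _ => app μ 0) ?_ ?_ ?_ ?_
    · intro μ hμ
      rw [mem_filter, mem_VS] at hμ
      rw [mem_VS]
      exact ⟨fun i => hμ.1.1 i.castSucc, fun i j hij =>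
        hμ.1.2 _ _ (Fin.castSucc_lt_castSucc_iff.2 hij)⟩
    · intro μ hμ
      rw [mem_VS] at hμ
      rw [mem_filter, mem_VS]
      refine ⟨⟨fun i => ?_, fun i j hij => ?_⟩, ?_⟩
      · induction i using Fin.lastCases with
        | last => rw [app_last]; exact Nat.zero_le _
        | cast i => rw [app_castSucc]; exact hμ.1 i
      · induction j using Fin.lastCases with
        | last => left; rw [app_last]
        | cast j =>
          induction i using Fin.lastCases with
          | last => exact absurd hij (not_lt.2 (Fin.le_last _))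
          | cast i =>
            rw [app_castSucc, app_castSucc]
            exact hμ.2 i j (Fin.castSucc_lt_castSucc_iff.1 hij)
      · rw [app_last]; omega
    · intro μ hμ
      rw [mem_filter, mem_VS] at hμ
      have h3 : μ (Fin.last m) = 0 := by omega
      conv_rhs => rw [← app_res μ, h3]
    · intro μ _
      exact res_app μ 0

/-- The proportion of the partitions with last row at least two. -/
lemma count_ratio (n k : ℕ) (hk : 2 * k < n) :
    (((VS n (k + 1)).filter (fun μ => 2 ≤ μ (Fin.last k))).card : ℚ) =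
      ((n : ℚ) - 2 * k - 1) / ((n : ℚ) + 1) * ((VS n (k + 1)).card : ℚ) := by
  rw [VS_filter_ge n 2 k (by omega), VS_card n (k + 1) (by omega)]
  have h1 := DS_card n n (by omega) (by omega) k (by omega)
  have h2 : n + 2 - n = 2 := by omega
  rw [h2] at h1
  have h3 : ((DS n 2 (k + 1)).card : ℚ) = (n.choose (k + 1) : ℚ) - (n.choose k : ℚ) := by
    rw [← h1]; push_cast; ring
  rw [h3, Nat.choose_succ_succ n k]
  have h4 : (n.choose k : ℚ) * ((n : ℚ) - k) = (n.choose (k + 1) : ℚ) * ((k : ℚ) + 1) := by
    have := Nat.choose_succ_right_eq n k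
    have h5 : ((n.choose (k + 1) * (k + 1) : ℕ) : ℚ) = ((n.choose k * (n - k) : ℕ) : ℚ) := by
      rw [this]
    push_cast [Nat.cast_sub (show k ≤ n by omega)] at h5
    linarith
  have h6 : (n : ℚ) + 1 ≠ 0 := by positivity
  push_cast
  field_simp
  linear_combination (-2) * h4

end Pool.Agent.Lib.MP_f5b555_co
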