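import Mathlib
import Pool.Agent.Lib.MP_f5b555_co.Count

/-!
The pointwise formula for the down degree.
-/

set_option linter.unusedSectionVars false

namespace Pool.Agent.Lib.MP_f5b555_co

open Finset
open scoped Classical

/-- The coefficient of the box in row `i` and position `l` (positions start with one). -/
def Cc (n i l : ℕ) : ℚ :=
  if l ≤ 1 then ((n : ℚ) + 1 - 2 * i) / 4 else ((n : ℚ) + 1 - 2 * i - l) / 2

/-- Telescoping term. -/
def gg (n i x : ℕ) : ℚ := if 2 ≤ x then (i : ℚ) / 2 else ((n : ℚ) + 1) / 4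

/-- Blocking term. -/
def bb (n i z x : ℕ) : ℚ := if 1 ≤ x ∧ z = x + 1 then ((n : ℚ) - 2 * i - x) / 2 else 0

lemma local_identity (n i x y z : ℕ) (hi : 2 * i < n) (hx : x ≤ n - 2 * i)
    (hxz : x = 0 ∨ x < z) (hyx : y = 0 ∨ y < x) :
    (if 0 < x ∧ (y = 0 ∨ y + 1 < x) then 1 - Cc n i x else 0) +
      (if x + 1 ≤ n - 2 * i ∧ x + 1 < z then Cc n i (x + 1) else 0) =
      (gg n (i + 1) x + bb n (i + 1) x y) - (gg n i z + bb n i z x) := by
  rcases Nat.lt_or_ge x 1 with hx0 | hx1
  · -- `x = 0`
    have hx0 : x = 0 := by omega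
    subst hx0
    have hy : y = 0 := by omega
    subst hy
    have h1 : 0 + 1 ≤ n - 2 * i := by omega
    by_cases hz : 2 ≤ z
    · have h2 : 0 + 1 < z := by omega
      simp [Cc, gg, bb, hz, h1, h2]
      ring
    · have h2 : ¬ (0 + 1 < z) := by omega
      simp [Cc, gg, bb, hz, h1, h2]
  · have hxz' : x < z := by omega
    have hz2 : 2 ≤ z := by omega
    rcases Nat.lt_or_ge x 2 with hx2 | hx2
    · -- `x = 1`
      have hx0 : x = 1 := by omega
      subst hx0
      have hy : y = 0 := by omega
      subst hy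
      by_cases hz3 : z = 2
      · subst hz3
        simp [Cc, gg, bb]
        ring
      · have h2 : 1 + 1 < z := by omega
        by_cases h1 : 1 + 1 ≤ n - 2 * i
        · simp [Cc, gg, bb, hz2, hz3, h1, h2]
          ring
        · have h3 : n = 2 * i + 1 := by omega
          have h4 : (n : ℚ) = 2 * i + 1 := by rw [h3]; push_cast; ring
          simp [Cc, gg, bb, hz2, hz3, h1]
          rw [h4]
          ring
    · -- `x ≥ 2`
      have hC1 : Cc n i x = ((n : ℚ) + 1 - 2 * i - x) / 2 := if_neg (by omega)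
      have hC2 : Cc n i (x + 1) = ((n : ℚ) - 2 * i - x) / 2 := by
        unfold Cc
        rw [if_neg (by omega)]
        push_cast
        ring
      have hg1 : gg n (i + 1) x = ((i : ℚ) + 1) / 2 := by
        unfold gg
        rw [if_pos hx2]
        push_cast
        ring
      have hg2 : gg n i z = (i : ℚ) / 2 := if_pos hz2
      rw [hC1, hC2, hg1, hg2]
      have hA : (if x + 1 ≤ n - 2 * i ∧ x + 1 < z then ((n : ℚ) - 2 * i - x) / 2 else 0) =
          ((n : ℚ) - 2 * i - x) / 2 - bb n i z x := by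
        by_cases hz3 : z = x + 1
        · have hb : bb n i z x = ((n : ℚ) - 2 * i - x) / 2 := if_pos ⟨hx1, hz3⟩
          rw [if_neg (by omega), hb]
          ring
        · have hb : bb n i z x = 0 := if_neg (fun h => hz3 h.2)
          rw [hb]
          by_cases h1 : x + 1 ≤ n - 2 * i
          · rw [if_pos ⟨h1, by omega⟩]
            ring
          · rw [if_neg (fun h => h1 h.1)]
            have h3 : n = 2 * i + x := by omega
            have h4 : (n : ℚ) = 2 * i + x := by rw [h3]; push_cast; ring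
            rw [h4]
            ring
      have hB : (if 0 < x ∧ (y = 0 ∨ y + 1 < x) then 1 - ((n : ℚ) + 1 - 2 * i - x) / 2 else 0) =
          1 - ((n : ℚ) + 1 - 2 * i - x) / 2 + bb n (i + 1) x y := by
        unfold bb
        by_cases hy : 1 ≤ y ∧ x = y + 1
        · rw [if_neg (by omega), if_pos hy, hy.2]
          push_cast
          ring
        · rw [if_pos (by omega), if_neg hy]
          ring
      rw [hA, hB]
      ring

/-- Extension of `μ` by zero. -/
def ext0 {m : ℕ} (μ : Fin m → ℕ) (i : ℕ) : ℕ := if h : i < m then μ ⟨i, h⟩ else 0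

/-- The previous entry. -/
def prv {m : ℕ} (n : ℕ) (μ : Fin m → ℕ) (i : ℕ) : ℕ :=
  match i with
  | 0 => n + 2
  | i + 1 => ext0 μ i

lemma ext0_val {m : ℕ} (μ : Fin m → ℕ) (i : Fin m) : ext0 μ i = μ i := by
  simp [ext0]

lemma rem_iff {n m : ℕ} {μ : Fin m → ℕ} (hμ : μ ∈ VS n m) (i : Fin m) :
    (0 < μ i ∧ dn μ i ∈ VS n m) ↔
      (0 < ext0 μ i ∧ (ext0 μ ((i : ℕ) + 1) = 0 ∨ ext0 μ ((i : ℕ) + 1) + 1 < ext0 μ i)) := by
  rw [mem_VS] at hμ
  obtain ⟨h1, h2⟩ := hμ
  rw [ext0_val, mem_VS]
  constructor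
  · rintro ⟨h0, h3, h4⟩
    refine ⟨h0, ?_⟩
    by_cases hi : (i : ℕ) + 1 < m
    · have h5 := h4 i ⟨(i : ℕ) + 1, hi⟩ (by rw [Fin.lt_def]; simp)
      rw [dn_self, dn_ne _ (by intro h; have := congrArg Fin.val h; simp at this)] at h5
      unfold ext0
      rw [dif_pos hi]
      omega
    · left
      unfold ext0
      rw [dif_neg hi]
  · rintro ⟨h0, h3⟩
    refine ⟨h0, fun j => ?_, fun a b hab => ?_⟩
    · by_cases hj : j = i
      · subst hj; rw [dn_self]; have := h1 j; omega
      · rw [dn_ne _ hj]; exact h1 j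
    · by_cases ha : a = i
      · subst ha
        rw [dn_self, dn_ne _ (ne_of_gt hab)]
        have hi : (a : ℕ) + 1 < m := by
          have := b.isLt
          have := Fin.lt_def.1 hab
          omega
        unfold ext0 at h3
        rw [dif_pos hi] at h3
        by_cases hb : b = ⟨(a : ℕ) + 1, hi⟩
        · subst hb; omega
        · have h6 : (⟨(a : ℕ) + 1, hi⟩ : Fin m) < b := by
            rw [Fin.lt_def]
            have h7 := Fin.lt_def.1 hab
            have h8 : (b : ℕ) ≠ (a : ℕ) + 1 := fun h => hb (Fin.ext h)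
            change (a : ℕ) + 1 < (b : ℕ)
            omega
          have h9 := h2 _ _ h6
          omega
      · rw [dn_ne _ ha]
        by_cases hb : b = i
        · subst hb
          rw [dn_self]
          have := h2 a b hab
          omega
        · rw [dn_ne _ hb]
          exact h2 a b hab

lemma add_iff {n m : ℕ} {μ : Fin m → ℕ} (hμ : μ ∈ VS n m) (i : Fin m) :
    up μ i ∈ VS n m ↔
      (ext0 μ i + 1 ≤ n - 2 * (i : ℕ) ∧ ext0 μ i + 1 < prv n μ i) := by
  rw [mem_VS] at hμ
  obtain ⟨h1, h2⟩ := hμ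
  rw [ext0_val, mem_VS]
  constructor
  · rintro ⟨h3, h4⟩
    have h5 := h3 i
    rw [up_self] at h5
    refine ⟨h5, ?_⟩
    rcases hi : (i : ℕ) with _ | j
    · change μ i + 1 < n + 2
      omega
    · have hj : j < m := by have := i.isLt; omega
      have hji : (⟨j, hj⟩ : Fin m) < i := by rw [Fin.lt_def]; change j < (i : ℕ); omega
      have h6 := h4 ⟨j, hj⟩ i hji
      rw [up_self, up_ne _ (ne_of_lt hji)] at h6
      change μ i + 1 < ext0 μ j
      unfold ext0
      rw [dif_pos hj]
      omega
  · rintro ⟨h3, h4⟩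
    refine ⟨fun j => ?_, fun a b hab => ?_⟩
    · by_cases hj : j = i
      · subst hj; rw [up_self]; exact h3
      · rw [up_ne _ hj]; exact h1 j
    · by_cases hb : b = i
      · subst hb
        rw [up_self, up_ne _ (ne_of_lt hab)]
        right
        have hab' := Fin.lt_def.1 hab
        rcases hi : (b : ℕ) with _ | j
        · omega
        · rw [hi] at h4
          change μ b + 1 < ext0 μ j at h4
          have hj : j < m := by have := b.isLt; omega
          unfold ext0 at h4
          rw [dif_pos hj] at h4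
          by_cases haj : a = ⟨j, hj⟩
          · rw [haj]; exact h4
          · have h6 : a < ⟨j, hj⟩ := by
              rw [Fin.lt_def]
              have h8 : (a : ℕ) ≠ j := fun h => haj (Fin.ext h)
              change (a : ℕ) < j
              omega
            have h9 := h2 _ _ h6
            omega
      · rw [up_ne _ hb]
        by_cases ha : a = i
        · subst ha
          rw [up_self]
          have := h2 a b hab
          omega
        · rw [up_ne _ ha]
          exact h2 a b hab

/-- The pointwise formula. -/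
lemma pointwise {n k : ℕ} (hk : 2 * k < n) {μ : Fin (k + 1) → ℕ} (hμ : μ ∈ VS n (k + 1)) :
    ∑ i, ((if 0 < μ i ∧ dn μ i ∈ VS n (k + 1) then 1 - Cc n i (μ i) else 0) +
      (if up μ i ∈ VS n (k + 1) then Cc n i (μ i + 1) else 0)) =
      ((k : ℚ) + 1) / 2 +
        (if μ (Fin.last k) ≤ 1 then ((n : ℚ) - 2 * k - 1) / 4 else 0) := by
  have hterm : ∀ i : Fin (k + 1),
      (if 0 < μ i ∧ dn μ i ∈ VS n (k + 1) then 1 - Cc n i (μ i) else 0) +
      (if up μ i ∈ VS n (k + 1) then Cc n i (μ i + 1) else 0) =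
      (fun j : ℕ => (gg n (j + 1) (ext0 μ j) + bb n (j + 1) (ext0 μ j) (ext0 μ (j + 1))) -
        (gg n j (prv n μ j) + bb n j (prv n μ j) (ext0 μ j))) (i : ℕ) := by
    intro i
    have hμ' := mem_VS.1 hμ
    have hil := i.isLt
    have key := local_identity n i (ext0 μ i) (ext0 μ ((i : ℕ) + 1)) (prv n μ i)
      (by omega) (by rw [ext0_val]; exact hμ'.1 i)
      (by
        rcases hi : (i : ℕ) with _ | j
        · right
          change ext0 μ 0 < n + 2
          have h1 := hμ'.1 i
          have h2 := ext0_val μ i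
          rw [hi] at h2
          omega
        · change ext0 μ (j + 1) = 0 ∨ ext0 μ (j + 1) < ext0 μ j
          have hj : j < k + 1 := by omega
          have hji : (⟨j, hj⟩ : Fin (k + 1)) < i := by
            rw [Fin.lt_def]; change j < (i : ℕ); omega
          have h3 := hμ'.2 _ _ hji
          have h2 := ext0_val μ i
          rw [hi] at h2
          have h4 : ext0 μ j = μ ⟨j, hj⟩ := by unfold ext0; rw [dif_pos hj]
          rw [h2, h4]
          exact h3)
      (by
        by_cases hi : (i : ℕ) + 1 < k + 1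
        · have h4 : ext0 μ ((i : ℕ) + 1) = μ ⟨(i : ℕ) + 1, hi⟩ := by unfold ext0; rw [dif_pos hi]
          rw [h4, ext0_val]
          exact hμ'.2 _ _ (by rw [Fin.lt_def]; simp)
        · left
          unfold ext0
          rw [dif_neg hi])
    simp only
    rw [← key, ext0_val]
    congr 1
    · have h5 := rem_iff hμ i
      rw [ext0_val] at h5
      simp only [h5]
    · have h5 := add_iff hμ i
      rw [ext0_val] at h5
      simp only [h5]
  rw [sum_congr rfl fun i _ => hterm i,
    Fin.sum_univ_eq_sum_range (fun j : ℕ => (gg n (j + 1) (ext0 μ j) +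
      bb n (j + 1) (ext0 μ j) (ext0 μ (j + 1))) -
      (gg n j (prv n μ j) + bb n j (prv n μ j) (ext0 μ j))) (k + 1)]
  obtain ⟨T, hT⟩ : ∃ T : ℕ → ℚ, ∀ j, T j =
      gg n j (prv n μ j) + bb n j (prv n μ j) (ext0 μ j) := ⟨_, fun _ => rfl⟩
  have htel : ∀ j : ℕ, (gg n (j + 1) (ext0 μ j) + bb n (j + 1) (ext0 μ j) (ext0 μ (j + 1))) -
      (gg n j (prv n μ j) + bb n j (prv n μ j) (ext0 μ j)) = T (j + 1) - T j := by
    intro j
    rw [hT, hT]
    rfl
  rw [sum_congr rfl fun j _ => htel j, sum_range_sub, hT, hT]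
  have e1 : prv n μ (k + 1) = μ (Fin.last k) := by
    change ext0 μ k = _
    exact ext0_val μ (Fin.last k)
  have e2 : ext0 μ (k + 1) = 0 := by unfold ext0; rw [dif_neg (lt_irrefl _)]
  have e3 : prv n μ 0 = n + 2 := rfl
  rw [e1, e2, e3]
  have hμ' := mem_VS.1 hμ
  have h0 : ext0 μ 0 ≤ n := by
    have h1 := hμ'.1 0
    have h2 := ext0_val μ 0
    rw [Fin.val_zero] at h2 h1
    omega
  have b1 : bb n (k + 1) (μ (Fin.last k)) 0 = 0 := if_neg (by omega)
  have b2 : bb n 0 (n + 2) (ext0 μ 0) = 0 := if_neg (by omega)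
  have g2 : gg n 0 (n + 2) = 0 := by
    unfold gg; rw [if_pos (by omega)]; simp
  rw [b1, b2, g2]
  unfold gg
  by_cases h : 2 ≤ μ (Fin.last k)
  · rw [if_pos h, if_neg (by omega)]
    push_cast
    ring
  · rw [if_neg h, if_pos (by omega)]
    ring

end Pool.Agent.Lib.MP_f5b555_co
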