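import Mathlib
import Pool.Agent.Lib.MP_f5b555_co.Abs

/-!
Sums over words (saturated chains) expressed by recursions.
-/

set_option linter.unusedSectionVars false

namespace Pool.Agent.Lib.MP_f5b555_co

open Finset
open scoped Classical

variable {m : ℕ}

/-- The state reached from `μ` after `j` letters of the word `w`. -/
def st (μ : Fin m → ℕ) {M : ℕ} (w : Fin M → Fin m) (j : ℕ) : Fin m → ℕ :=
  fun i => μ i + (univ.filter (fun t : Fin M => (t : ℕ) < j ∧ w t = i)).card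

lemma st_zero (μ : Fin m → ℕ) {M : ℕ} (w : Fin M → Fin m) : st μ w 0 = μ := by
  funext i; simp [st]

lemma st_cons_succ (μ : Fin m → ℕ) {M : ℕ} (a : Fin m) (w : Fin M → Fin m) (j : ℕ) :
    st μ (Fin.cons a w : Fin (M + 1) → Fin m) (j + 1) = st (up μ a) w j := by
  funext i
  unfold st
  have h : (univ.filter (fun t : Fin (M + 1) => (t : ℕ) < j + 1 ∧
      (Fin.cons a w : Fin (M + 1) → Fin m) t = i)).card =
      (if a = i then 1 else 0) + (univ.filter (fun t : Fin M => (t : ℕ) < j ∧ w t = i)).card := by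
    rw [card_filter, card_filter, Fin.sum_univ_succ]
    simp
  rw [h]
  by_cases hi : a = i
  · subst hi
    rw [if_pos rfl, up_self]; omega
  · rw [if_neg hi, up_ne _ (Ne.symm hi)]; omega

variable (V : (Fin m → ℕ) → Prop) (lam : Fin m → ℕ)

/-- The set of valid words of length `M` leading from `μ` to `lam`. -/
noncomputable def WS (M : ℕ) (μ : Fin m → ℕ) : Finset (Fin M → Fin m) :=
  univ.filter (fun w => (∀ j ≤ M, V (st μ w j)) ∧ st μ w M = lam)

lemma mem_WS (M : ℕ) (μ : Fin m → ℕ) (w : Fin M → Fin m) :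
    w ∈ WS V lam M μ ↔ (∀ j ≤ M, V (st μ w j)) ∧ st μ w M = lam := by
  simp [WS]

lemma cons_mem_WS (M : ℕ) (μ : Fin m → ℕ) (a : Fin m) (w : Fin M → Fin m) :
    (Fin.cons a w : Fin (M + 1) → Fin m) ∈ WS V lam (M + 1) μ ↔
      V μ ∧ w ∈ WS V lam M (up μ a) := by
  rw [mem_WS, mem_WS, st_cons_succ]
  constructor
  · rintro ⟨h1, h2⟩
    refine ⟨?_, ?_, h2⟩
    · have := h1 0 (Nat.zero_le _)
      rwa [st_zero] at this
    · intro j hj
      have := h1 (j + 1) (Nat.succ_le_succ hj)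
      rwa [st_cons_succ] at this
  · rintro ⟨h0, h1, h2⟩
    refine ⟨?_, h2⟩
    intro j hj
    cases j with
    | zero => rwa [st_zero]
    | succ j => rw [st_cons_succ]; exact h1 j (Nat.le_of_succ_le_succ hj)

/-- The sum of `φ` over all states of all valid words. -/
noncomputable def qs (φ : (Fin m → ℕ) → ℚ) (M : ℕ) (μ : Fin m → ℕ) : ℚ :=
  ∑ w ∈ WS V lam M μ, ∑ j ∈ range (M + 1), φ (st μ w j)

/-- The number of valid words. -/
noncomputable def cs (M : ℕ) (μ : Fin m → ℕ) : ℚ := ∑ w ∈ WS V lam M μ, 1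

lemma sum_words_succ (M : ℕ) (f : (Fin (M + 1) → Fin m) → ℚ) :
    ∑ w, f w = ∑ a : Fin m, ∑ w : Fin M → Fin m, f (Fin.cons a w) := by
  rw [← Fintype.sum_prod_type']
  exact (Fintype.sum_equiv (Fin.consEquiv (fun _ : Fin (M + 1) => Fin m)) _ _
    (fun _ => rfl)).symm

lemma cs_succ (M : ℕ) (μ : Fin m → ℕ) (hμ : V μ) :
    cs V lam (M + 1) μ = ∑ a, cs V lam M (up μ a) := by
  unfold cs
  have e1 : ∀ (M : ℕ) (μ : Fin m → ℕ), ∑ w ∈ WS V lam M μ, (1 : ℚ) =
      ∑ w, (if w ∈ WS V lam M μ then (1 : ℚ) else 0) := by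
    intro M μ; rw [← sum_filter]; simp
  rw [e1, sum_words_succ]
  refine sum_congr rfl fun a _ => ?_
  rw [e1]
  refine sum_congr rfl fun w _ => ?_
  simp only [cons_mem_WS, hμ, true_and]

lemma qs_succ (φ : (Fin m → ℕ) → ℚ) (M : ℕ) (μ : Fin m → ℕ) (hμ : V μ) :
    qs V lam φ (M + 1) μ = φ μ * cs V lam (M + 1) μ + ∑ a, qs V lam φ M (up μ a) := by
  have e1 : ∀ (M : ℕ) (μ : Fin m → ℕ) (f : (Fin M → Fin m) → ℚ), ∑ w ∈ WS V lam M μ, f w =
      ∑ w, (if w ∈ WS V lam M μ then f w else 0) := by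
    intro M μ f; rw [← sum_filter]; simp
  have e2 : qs V lam φ (M + 1) μ = ∑ w ∈ WS V lam (M + 1) μ, φ μ +
      ∑ w ∈ WS V lam (M + 1) μ, ∑ j ∈ range (M + 1), φ (st μ w (j + 1)) := by
    unfold qs
    rw [← sum_add_distrib]
    refine sum_congr rfl fun w _ => ?_
    rw [sum_range_succ', add_comm, st_zero]
  rw [e2]
  congr 1
  · unfold cs
    rw [mul_sum]
    refine sum_congr rfl fun w _ => ?_
    rw [mul_one]
  · rw [e1, sum_words_succ]
    refine sum_congr rfl fun a _ => ?_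
    unfold qs
    rw [e1]
    refine sum_congr rfl fun w _ => ?_
    simp only [cons_mem_WS, hμ, true_and, st_cons_succ]

lemma cs_zero_of_not (M : ℕ) (μ : Fin m → ℕ) (hμ : ¬ V μ) : cs V lam M μ = 0 := by
  unfold cs
  apply sum_eq_zero
  intro w hw
  rw [mem_WS] at hw
  have := hw.1 0 (Nat.zero_le _)
  rw [st_zero] at this
  exact absurd this hμ

lemma qs_zero_of_not (φ : (Fin m → ℕ) → ℚ) (M : ℕ) (μ : Fin m → ℕ) (hμ : ¬ V μ) :
    qs V lam φ M μ = 0 := by
  unfold qs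
  apply sum_eq_zero
  intro w hw
  rw [mem_WS] at hw
  have := hw.1 0 (Nat.zero_le _)
  rw [st_zero] at this
  exact absurd this hμ

lemma cs_top (hlam : V lam) : cs V lam 0 lam = 1 := by
  have h : WS V lam 0 lam = univ := by
    ext w
    rw [mem_WS]
    simp only [mem_univ, iff_true]
    refine ⟨fun j hj => ?_, st_zero _ _⟩
    rw [Nat.le_zero.1 hj, st_zero]
    exact hlam
  unfold cs
  rw [h]
  simp

lemma qs_top (φ : (Fin m → ℕ) → ℚ) (hlam : V lam) : qs V lam φ 0 lam = φ lam := by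
  have h : WS V lam 0 lam = univ := by
    ext w
    rw [mem_WS]
    simp only [mem_univ, iff_true]
    refine ⟨fun j hj => ?_, st_zero _ _⟩
    rw [Nat.le_zero.1 hj, st_zero]
    exact hlam
  unfold qs
  rw [h]
  simp [st_zero]

/-- The number of valid words from `μ` to `lam`. -/
noncomputable def hh (μ : Fin m → ℕ) : ℚ := cs V lam ((∑ i, lam i) - ∑ i, μ i) μ

/-- The sum of `φ` over all states of the valid words from `μ` to `lam`. -/
noncomputable def qq (φ : (Fin m → ℕ) → ℚ) (μ : Fin m → ℕ) : ℚ :=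
  qs V lam φ ((∑ i, lam i) - ∑ i, μ i) μ

lemma sum_up (μ : Fin m → ℕ) (i : Fin m) : ∑ j, up μ i j = (∑ j, μ j) + 1 := by
  rw [← add_sum_erase univ _ (mem_univ i), ← add_sum_erase univ μ (mem_univ i), up_self]
  have : ∑ j ∈ univ.erase i, up μ i j = ∑ j ∈ univ.erase i, μ j :=
    sum_congr rfl fun j hj => up_ne _ (ne_of_mem_erase hj)
  rw [this]; ring

lemma sum_lt_of_ne {μ lam : Fin m → ℕ} (hle : ∀ i, μ i ≤ lam i) (hne : μ ≠ lam) :
    ∑ i, μ i < ∑ i, lam i := by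
  obtain ⟨i, hi⟩ := Function.ne_iff.1 hne
  exact sum_lt_sum (fun i _ => hle i) ⟨i, mem_univ i, lt_of_le_of_ne (hle i) hi⟩

variable {V lam}

lemma hh_top (hlam : V lam) : hh V lam lam = 1 := by
  unfold hh; rw [Nat.sub_self]; exact cs_top V lam hlam

lemma hh_rec (P : Finset (Fin m → ℕ)) (hP : ∀ μ, μ ∈ P ↔ V μ) (hle : ∀ μ, V μ → ∀ i, μ i ≤ lam i)
    (μ : Fin m → ℕ) (hμ : μ ∈ P) (hne : μ ≠ lam) :
    hh V lam μ = ∑ i, (if up μ i ∈ P then hh V lam (up μ i) else 0) := by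
  have hV := (hP μ).1 hμ
  have hlt := sum_lt_of_ne (hle μ hV) hne
  unfold hh
  have h1 : (∑ i, lam i) - ∑ i, μ i = ((∑ i, lam i) - ((∑ i, μ i) + 1)) + 1 := by omega
  rw [h1, cs_succ V lam _ _ hV]
  refine sum_congr rfl fun i _ => ?_
  split_ifs with h
  · rw [sum_up]
  · exact cs_zero_of_not V lam _ _ (fun h2 => h ((hP _).2 h2))

lemma not_up_top (P : Finset (Fin m → ℕ)) (hP : ∀ μ, μ ∈ P ↔ V μ)
    (hle : ∀ μ, V μ → ∀ i, μ i ≤ lam i) (i : Fin m) : up lam i ∉ P := by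
  intro h
  have := hle _ ((hP _).1 h) i
  rw [up_self] at this
  omega

lemma qq_rec (φ : (Fin m → ℕ) → ℚ) (P : Finset (Fin m → ℕ)) (hP : ∀ μ, μ ∈ P ↔ V μ)
    (hle : ∀ μ, V μ → ∀ i, μ i ≤ lam i) (hlam : V lam)
    (μ : Fin m → ℕ) (hμ : μ ∈ P) :
    qq V lam φ μ = φ μ * hh V lam μ +
      ∑ i, (if up μ i ∈ P then qq V lam φ (up μ i) else 0) := by
  by_cases hne : μ = lam
  · subst hne
    rw [hh_top hlam]
    have : ∑ i, (if up μ i ∈ P then qq V μ φ (up μ i) else 0) = 0 :=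
      sum_eq_zero fun i _ => if_neg (not_up_top P hP hle i)
    rw [this]
    unfold qq
    rw [Nat.sub_self, qs_top V μ φ hlam]
    ring
  · have hV := (hP μ).1 hμ
    have hlt := sum_lt_of_ne (hle μ hV) hne
    unfold qq hh
    have h1 : (∑ i, lam i) - ∑ i, μ i = ((∑ i, lam i) - ((∑ i, μ i) + 1)) + 1 := by omega
    rw [h1, qs_succ V lam φ _ _ hV]
    congr 1
    refine sum_congr rfl fun i _ => ?_
    split_ifs with h
    · rw [sum_up]
    · exact qs_zero_of_not V lam φ _ _ (fun h2 => h ((hP _).2 h2))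

end Pool.Agent.Lib.MP_f5b555_co
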