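import Mathlib
import Pool.Agent.Lib.MP_f5b555_co.Pointwise
import Pool.Agent.Lib.MP_f5b555_co.Words

/-!
Assembly: the expected down degree for the uniform and the maximal chain distribution.
-/

set_option linter.unusedSectionVars false

namespace Pool.Agent.Lib.MP_f5b555_co

open Finset
open scoped Classical

lemma sum_rows (n k : ℕ) (hk : 2 * k < n) :
    ((∑ i : Fin (k + 1), (n - 2 * (i : ℕ)) : ℕ) : ℚ) = ((k : ℚ) + 1) * ((n : ℚ) - k) := by
  rw [Fin.sum_univ_eq_sum_range (fun i => n - 2 * i) (k + 1)]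
  have : ∀ m : ℕ, 2 * m ≤ n + 1 →
      ((∑ i ∈ range m, (n - 2 * i) : ℕ) : ℚ) = (m : ℚ) * ((n : ℚ) - m + 1) := by
    intro m
    induction m with
    | zero => intro _; simp
    | succ m ih =>
      intro hm
      rw [sum_range_succ]
      push_cast
      have h1 := ih (by omega)
      push_cast at h1
      rw [h1, Nat.cast_sub (by omega)]
      push_cast
      ring
  rw [this (k + 1) (by omega)]
  push_cast
  ring

/-- The down degree as a rational number. -/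
noncomputable def dd {m : ℕ} (P : Finset (Fin m → ℕ)) (μ : Fin m → ℕ) : ℚ :=
  ∑ i, (if 0 < μ i ∧ dn μ i ∈ P then (1 : ℚ) else 0)

lemma expect {n k : ℕ} (hk : 2 * k < n) (w : (Fin (k + 1) → ℕ) → ℚ)
    (hw : Balanced (VS n (k + 1)) w)
    (hr : ∑ μ ∈ VS n (k + 1), (if 2 ≤ μ (Fin.last k) then w μ else 0) =
      ((n : ℚ) - 2 * k - 1) / ((n : ℚ) + 1) * ∑ μ ∈ VS n (k + 1), w μ) :
    ∑ μ ∈ VS n (k + 1), w μ * dd (VS n (k + 1)) μ =
      (((k : ℚ) + 1) * ((n : ℚ) - k)) / ((n : ℚ) + 1) * ∑ μ ∈ VS n (k + 1), w μ := by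
  set P := VS n (k + 1) with hP
  have e1 : ∀ μ ∈ P, w μ * dd P μ =
      w μ * (((k : ℚ) + 1) / 2) +
        (if μ (Fin.last k) ≤ 1 then w μ else 0) * (((n : ℚ) - 2 * k - 1) / 4) +
      ∑ i : Fin (k + 1), ((if 0 < μ i ∧ dn μ i ∈ P then Cc n i (μ i) * w μ else 0) -
        (if up μ i ∈ P then Cc n i (μ i + 1) * w μ else 0)) := by
    intro μ hμ
    have h1 := pointwise hk hμ
    have h2 : w μ * dd P μ = w μ * (∑ i : Fin (k + 1),
        ((if 0 < μ i ∧ dn μ i ∈ VS n (k + 1) then 1 - Cc n i (μ i) else 0) +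
        (if up μ i ∈ VS n (k + 1) then Cc n i (μ i + 1) else 0))) +
        ∑ i : Fin (k + 1), ((if 0 < μ i ∧ dn μ i ∈ P then Cc n i (μ i) * w μ else 0) -
        (if up μ i ∈ P then Cc n i (μ i + 1) * w μ else 0)) := by
      unfold dd
      rw [mul_sum, mul_sum, ← sum_add_distrib]
      refine sum_congr rfl fun i _ => ?_
      rw [← hP]
      split_ifs <;> ring
    rw [h2, h1]
    split_ifs <;> ring
  have e2 : ∑ μ ∈ P, ∑ i : Fin (k + 1),
      ((if 0 < μ i ∧ dn μ i ∈ P then Cc n i (μ i) * w μ else 0) -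
        (if up μ i ∈ P then Cc n i (μ i + 1) * w μ else 0)) = 0 := by
    rw [sum_comm]
    refine sum_eq_zero fun i _ => ?_
    rw [sum_sub_distrib, hw i (Cc n i), sub_self]
  have e3 : ∑ μ ∈ P, (if μ (Fin.last k) ≤ 1 then w μ else 0) =
      ∑ μ ∈ P, w μ - ∑ μ ∈ P, (if 2 ≤ μ (Fin.last k) then w μ else 0) := by
    rw [← sum_sub_distrib]
    refine sum_congr rfl fun μ _ => ?_
    by_cases h : 2 ≤ μ (Fin.last k)
    · rw [if_pos h, if_neg (by omega)]; ring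
    · rw [if_neg h, if_pos (by omega)]; ring
  rw [sum_congr rfl e1, sum_add_distrib, sum_add_distrib, e2, ← sum_mul, ← sum_mul, e3, hr]
  have h6 : (n : ℚ) + 1 ≠ 0 := by positivity
  field_simp
  ring

lemma VS_inf {n m : ℕ} {μ ν : Fin m → ℕ} (h1 : μ ∈ VS n m) (h2 : ν ∈ VS n m) :
    μ ⊓ ν ∈ VS n m := by
  rw [mem_VS] at *
  refine ⟨fun i => (min_le_left _ _).trans (h1.1 i), fun i j hij => ?_⟩
  rw [Pi.inf_apply, Pi.inf_apply]
  have h3 := h1.2 i j hij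
  have h4 := h2.2 i j hij
  change min (μ j) (ν j) = 0 ∨ min (μ j) (ν j) < min (μ i) (ν i)
  omega

lemma VS_sup {n m : ℕ} {μ ν : Fin m → ℕ} (h1 : μ ∈ VS n m) (h2 : ν ∈ VS n m) :
    μ ⊔ ν ∈ VS n m := by
  rw [mem_VS] at *
  refine ⟨fun i => max_le (h1.1 i) (h2.1 i), fun i j hij => ?_⟩
  rw [Pi.sup_apply, Pi.sup_apply]
  have h3 := h1.2 i j hij
  have h4 := h2.2 i j hij
  change max (μ j) (ν j) = 0 ∨ max (μ j) (ν j) < max (μ i) (ν i)
  omega

lemma VS_dn_iff {n m : ℕ} {μ : Fin m → ℕ} (h : μ ∈ VS n m) (i : Fin m) :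
    (0 < μ i ∧ dn μ i ∈ VS n m) ↔ (0 < μ i ∧ Strict (dn μ i)) := by
  constructor
  · rintro ⟨h1, h2⟩
    exact ⟨h1, (mem_VS.1 h2).2⟩
  · rintro ⟨h1, h2⟩
    refine ⟨h1, mem_VS.2 ⟨fun j => ?_, h2⟩⟩
    have h3 := (mem_VS.1 h).1
    by_cases hj : j = i
    · subst hj; rw [dn_self]; have := h3 j; omega
    · rw [dn_ne _ hj]; exact h3 j

/-- The top element. -/
def top (n k : ℕ) : Fin (k + 1) → ℕ := fun i => n - 2 * (i : ℕ)

lemma top_mem {n k : ℕ} (hk : 2 * k < n) : top n k ∈ VS n (k + 1) := by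
  rw [mem_VS]
  refine ⟨fun i => le_rfl, fun i j hij => Or.inr ?_⟩
  have h1 := Fin.lt_def.1 hij
  have h2 := j.isLt
  unfold top
  omega

lemma zero_mem (n m : ℕ) : (0 : Fin m → ℕ) ∈ VS n m := by
  rw [mem_VS]
  exact ⟨fun i => Nat.zero_le _, fun i j _ => Or.inl rfl⟩

lemma Fh_top_ne {n k : ℕ} (hk : 2 * k < n) : Fh (top n k) ≠ 0 := by
  unfold Fh
  refine mul_ne_zero (div_ne_zero ?_ ?_) ?_
  · exact_mod_cast Nat.factorial_ne_zero _
  · exact prod_ne_zero_iff.2 fun j _ => by exact_mod_cast Nat.factorial_ne_zero _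
  · refine prod_ne_zero_iff.2 fun p hp => ?_
    have h1 : p.1 < p.2 := (mem_filter.1 hp).2
    have h2 := Fin.lt_def.1 h1
    have h3 := p.2.isLt
    have h4 : 0 < top n k p.2 := by unfold top; omega
    have h5 : top n k p.2 < top n k p.1 := by unfold top; omega
    unfold theta
    rw [if_neg h4.ne']
    have h6 : (0 : ℚ) < (top n k p.2 : ℚ) := by exact_mod_cast h4
    have h7 : ((top n k p.2 : ℕ) : ℚ) < ((top n k p.1 : ℕ) : ℚ) := by exact_mod_cast h5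
    refine div_ne_zero ?_ ?_
    · intro h; linarith
    · intro h; linarith

section chains

variable {n k : ℕ} (hk : 2 * k < n) (V : (Fin (k + 1) → ℕ) → Prop)
  (hV : ∀ μ, μ ∈ VS n (k + 1) ↔ V μ)

include hk hV

lemma hle : ∀ μ, V μ → ∀ i, μ i ≤ top n k i := fun μ hμ i =>
  (mem_VS.1 ((hV μ).2 hμ)).1 i

lemma V_top : V (top n k) := (hV _).1 (top_mem hk)

lemma Fh_rec_P : ∀ ν ∈ VS n (k + 1), (∃ i, 0 < ν i) →
    Fh ν = ∑ i, (if 0 < ν i ∧ dn ν i ∈ VS n (k + 1) then Fh (dn ν i) else 0) := by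
  intro ν hν hex
  exact Fh_rec ν (mem_VS.1 hν).2 hex _ (fun i => VS_dn_iff hν i)

lemma hh_rec_full (μ : Fin (k + 1) → ℕ) (hμ : μ ∈ VS n (k + 1)) :
    hh V (top n k) μ = (if μ = top n k then 1 else 0) +
      ∑ i, (if up μ i ∈ VS n (k + 1) then hh V (top n k) (up μ i) else 0) := by
  by_cases h : μ = top n k
  · subst h
    rw [if_pos rfl, hh_top (V_top hk V hV)]
    have : ∑ i, (if up (top n k) i ∈ VS n (k + 1) then
        hh V (top n k) (up (top n k) i) else 0) = 0 :=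
      sum_eq_zero fun i _ => if_neg (not_up_top _ hV (hle hk V hV) i)
    rw [this, add_zero]
  · rw [if_neg h, zero_add]
    exact hh_rec _ hV (hle hk V hV) μ hμ h

lemma hh_zero : hh V (top n k) 0 = Fh (top n k) := by
  have h1 := sum_eq_of_rec (VS n (k + 1)) (zero_mem n (k + 1)) Fh (hh V (top n k))
    (fun μ => if μ = top n k then 1 else 0) Fh_zero (Fh_rec_P hk V hV)
    (hh_rec_full hk V hV)
  rw [h1, sum_eq_single (top n k)]
  · rw [if_pos rfl, mul_one]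
  · intro b _ hb
    rw [if_neg hb, mul_zero]
  · intro h; exact absurd (top_mem hk) h

lemma qq_zero (φ : (Fin (k + 1) → ℕ) → ℚ) : qq V (top n k) φ 0 =
    ∑ μ ∈ VS n (k + 1), Fh μ * (φ μ * hh V (top n k) μ) :=
  sum_eq_of_rec (VS n (k + 1)) (zero_mem n (k + 1)) Fh (qq V (top n k) φ)
    (fun μ => φ μ * hh V (top n k) μ) Fh_zero (Fh_rec_P hk V hV)
    (qq_rec φ _ hV (hle hk V hV) (V_top hk V hV))

lemma qq_one : qq V (top n k) (fun _ => 1) 0 =
    (((∑ i, top n k i : ℕ) : ℚ) + 1) * hh V (top n k) 0 := by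
  unfold qq qs hh cs
  have h0 : ∑ i, (0 : Fin (k + 1) → ℕ) i = 0 := by simp
  rw [h0, Nat.sub_zero, mul_sum]
  refine sum_congr rfl fun w _ => ?_
  rw [sum_const, card_range]
  simp

lemma total : ∑ μ ∈ VS n (k + 1), Fh μ * hh V (top n k) μ =
    (((∑ i, top n k i : ℕ) : ℚ) + 1) * Fh (top n k) := by
  have h1 := qq_zero hk V hV (fun _ => 1)
  rw [qq_one hk V hV, hh_zero hk V hV] at h1
  rw [h1]
  refine sum_congr rfl fun μ _ => ?_
  rw [one_mul]

lemma upper : ∑ μ ∈ VS n (k + 1), (if 2 ≤ μ (Fin.last k) then Fh μ * hh V (top n k) μ else 0) =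
    ((n : ℚ) - 2 * k - 1) / ((n : ℚ) + 1) *
      ∑ μ ∈ VS n (k + 1), Fh μ * hh V (top n k) μ := by
  have h1 := sum_eq_of_rec' (VS n (k + 1)) (top n k) (top_mem hk)
    (not_up_top _ hV (hle hk V hV)) Fp (hh V (top n k))
    (fun μ => if 2 ≤ μ (Fin.last k) then Fh μ else 0) (hh_top (V_top hk V hV))
    (fun μ hμ hne => hh_rec _ hV (hle hk V hV) μ hμ hne)
    (fun ν hν => Fp_rec ν (mem_VS.1 hν).2 _ (fun i => VS_dn_iff hν i))
  have h2 : Fp (top n k) = _ := Fp_top n k hk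
  have h3 : ∑ μ ∈ VS n (k + 1), (if 2 ≤ μ (Fin.last k) then Fh μ * hh V (top n k) μ else 0) =
      ∑ μ ∈ VS n (k + 1), (if 2 ≤ μ (Fin.last k) then Fh μ else 0) * hh V (top n k) μ := by
    refine sum_congr rfl fun μ _ => ?_
    split_ifs
    · rfl
    · rw [zero_mul]
  rw [h3, ← h1, h2, total hk V hV]
  unfold top
  ring

lemma chain_sum : ∑ μ ∈ VS n (k + 1), (Fh μ * hh V (top n k) μ) * dd (VS n (k + 1)) μ =
    (((k : ℚ) + 1) * ((n : ℚ) - k)) / ((n : ℚ) + 1) *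
      ((((∑ i, top n k i : ℕ) : ℚ) + 1) * Fh (top n k)) := by
  rw [← total hk V hV]
  refine expect hk (fun μ => Fh μ * hh V (top n k) μ) ?_ (upper hk V hV)
  refine balanced_mul (VS n (k + 1)) (fun μ hμ ν hν => VS_inf hμ hν)
    (fun μ hμ ν hν => VS_sup hμ hν) Fh (hh V (top n k)) (Fh_rec_P hk V hV) ?_
  intro μ hμ ⟨i, hi⟩
  refine hh_rec _ hV (hle hk V hV) μ hμ ?_
  rintro rfl
  exact not_up_top _ hV (hle hk V hV) i hi

end chains

lemma uniform_sum {n k : ℕ} (hk : 2 * k < n) :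
    ∑ μ ∈ VS n (k + 1), dd (VS n (k + 1)) μ =
      (((k : ℚ) + 1) * ((n : ℚ) - k)) / ((n : ℚ) + 1) * ((VS n (k + 1)).card : ℚ) := by
  have h1 := expect hk (fun _ => 1) (balanced_one _) (by
    rw [← sum_filter]
    simp only [sum_const, nsmul_eq_mul, mul_one]
    exact count_ratio n k hk)
  simpa using h1

end Pool.Agent.Lib.MP_f5b555_co
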