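import Mathlib
import Pool.Agent.Lib.MP_f5b555_co.Main

/-!
Covering relation and maximal chains of the poset of the functions in `VS n m`, in terms of words.
-/

set_option autoImplicit false

namespace Pool.Agent.Lib.MP_f5b555_co

open Finset
open scoped Classical

/-- The poset of the members of `VS n m`, with the pointwise order. -/
abbrev PV (n m : ℕ) : Type := {μ : Fin m → ℕ // μ ∈ VS n m}

/-- The size of a member. -/
def siz {n m : ℕ} (x : PV n m) : ℕ := ∑ i, x.1 i

lemma siz_mono {n m : ℕ} {x y : PV n m} (h : x ≤ y) : siz x ≤ siz y :=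
  Finset.sum_le_sum fun i _ => h i

lemma siz_lt {n m : ℕ} {x y : PV n m} (h : x < y) : siz x < siz y := by
  refine Finset.sum_lt_sum (fun i _ => h.le i) ?_
  by_contra hc
  push Not at hc
  exact absurd (fun i => hc i (mem_univ _) : y ≤ x) (not_le_of_gt h)

lemma eq_of_le_siz {n m : ℕ} {x y : PV n m} (h : x ≤ y) (hs : siz x = siz y) : x = y := by
  rcases h.lt_or_eq with h1 | h1
  · exact absurd hs (siz_lt h1).ne
  · exact h1

/-- Between `ν < μ` there is a member obtained from `μ` by lowering one entry. -/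
lemma exists_dn {n m : ℕ} {ν μ : PV n m} (h : ν < μ) :
    ∃ i, 0 < μ.1 i ∧ dn μ.1 i ∈ VS n m ∧ ∀ j, ν.1 j ≤ dn μ.1 i j := by
  have hne : (univ.filter (fun i : Fin m => ν.1 i < μ.1 i)).Nonempty := by
    by_contra hc
    rw [not_nonempty_iff_eq_empty, filter_eq_empty_iff] at hc
    exact absurd (fun i => not_lt.1 (hc (mem_univ i)) : μ ≤ ν) (not_le_of_gt h)
  set i := (univ.filter (fun i : Fin m => ν.1 i < μ.1 i)).max' hne with hi
  have hmem : i ∈ univ.filter (fun i : Fin m => ν.1 i < μ.1 i) := max'_mem _ _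
  have hlt : ν.1 i < μ.1 i := (mem_filter.1 hmem).2
  have hmax : ∀ j, i < j → μ.1 j = ν.1 j := by
    intro j hj
    by_contra hc
    have h1 : ν.1 j < μ.1 j := lt_of_le_of_ne (h.le j) (Ne.symm hc)
    have h2 : j ≤ i := by
      rw [hi]
      exact le_max' (univ.filter (fun i : Fin m => ν.1 i < μ.1 i)) j
        (mem_filter.2 ⟨mem_univ j, h1⟩)
    exact absurd h2 (not_le_of_gt hj)
  have hμ := mem_VS.1 μ.2
  have hν := mem_VS.1 ν.2
  refine ⟨i, lt_of_le_of_lt (Nat.zero_le _) hlt, mem_VS.2 ⟨fun j => ?_, fun a b hab => ?_⟩,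
    fun j => ?_⟩
  · by_cases hj : j = i
    · rw [hj, dn_self]
      have := hμ.1 i
      omega
    · rw [dn_ne _ hj]
      exact hμ.1 j
  · have h1 := hμ.2 a b hab
    by_cases ha : a = i
    · have hbi : b ≠ i := by rw [← ha]; exact hab.ne'
      rw [dn_ne _ hbi, ha, dn_self, hmax b (by rw [← ha]; exact hab)]
      have h2 := hν.2 a b hab
      rw [ha] at h2
      omega
    · by_cases hb : b = i
      · rw [hb, dn_self, dn_ne _ ha]
        rw [hb] at h1
        omega
      · rw [dn_ne _ ha, dn_ne _ hb]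
        exact h1
  · by_cases hj : j = i
    · rw [hj, dn_self]
      omega
    · rw [dn_ne _ hj]
      exact h.le j

lemma dn_lt {n m : ℕ} {μ : PV n m} {i : Fin m} (h0 : 0 < μ.1 i) (h1 : dn μ.1 i ∈ VS n m) :
    (⟨dn μ.1 i, h1⟩ : PV n m) < μ := by
  refine lt_of_le_of_ne (fun j => ?_) fun h => ?_
  · by_cases hj : j = i
    · rw [hj]
      change dn μ.1 i i ≤ μ.1 i
      rw [dn_self]
      omega
    · change dn μ.1 i j ≤ μ.1 j
      rw [dn_ne _ hj]
  · have h2 := congrFun (congrArg Subtype.val h) i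
    change dn μ.1 i i = μ.1 i at h2
    rw [dn_self] at h2
    omega

lemma siz_dn {n m : ℕ} {μ : PV n m} {i : Fin m} (h0 : 0 < μ.1 i) (h1 : dn μ.1 i ∈ VS n m) :
    siz (⟨dn μ.1 i, h1⟩ : PV n m) + 1 = siz μ := by
  unfold siz
  change (∑ j, dn μ.1 i j) + 1 = ∑ j, μ.1 j
  have h2 := sum_up (dn μ.1 i) i
  rw [up_dn _ _ h0] at h2
  rw [h2]

lemma covBy_iff {n m : ℕ} (ν μ : PV n m) :
    ν ⋖ μ ↔ ∃ i, 0 < μ.1 i ∧ ν.1 = dn μ.1 i := by
  constructor
  · intro h
    obtain ⟨i, h0, h1, h2⟩ := exists_dn h.lt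
    refine ⟨i, h0, ?_⟩
    have h3 : ν ≤ (⟨dn μ.1 i, h1⟩ : PV n m) := h2
    rcases h3.lt_or_eq with h4 | h4
    · exact absurd (dn_lt h0 h1) (h.2 h4)
    · exact congrArg Subtype.val h4
  · rintro ⟨i, h0, h1⟩
    have hm : dn μ.1 i ∈ VS n m := h1 ▸ ν.2
    have hν : ν = ⟨dn μ.1 i, hm⟩ := Subtype.ext h1
    have hs := siz_dn h0 hm
    rw [← hν] at hs
    have hlt := dn_lt h0 hm
    rw [← hν] at hlt
    refine ⟨hlt, fun ρ h2 h3 => ?_⟩
    have h4 := siz_lt h2
    have h5 := siz_lt h3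
    omega

/-- The down degree, as the number of elements covered. -/
lemma ncard_covBy {n m : ℕ} (μ : PV n m) :
    (({ν : PV n m | ν ⋖ μ}.ncard : ℕ) : ℚ) = dd (VS n m) μ.1 := by
  have h1 : {ν : PV n m | ν ⋖ μ} =
      (fun i : {i : Fin m // 0 < μ.1 i ∧ dn μ.1 i ∈ VS n m} =>
        (⟨dn μ.1 i.1, i.2.2⟩ : PV n m)) '' Set.univ := by
    ext ν
    simp only [Set.mem_ofPred_eq, Set.image_univ, Set.mem_range, Subtype.exists]
    rw [covBy_iff]
    constructor
    · rintro ⟨i, h0, h1⟩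
      exact ⟨i, ⟨h0, h1 ▸ ν.2⟩, Subtype.ext h1.symm⟩
    · rintro ⟨i, ⟨h0, h1⟩, h2⟩
      exact ⟨i, h0, by rw [← h2]⟩
  have hinj : Function.Injective (fun i : {i : Fin m // 0 < μ.1 i ∧ dn μ.1 i ∈ VS n m} =>
        (⟨dn μ.1 i.1, i.2.2⟩ : PV n m)) := by
    rintro ⟨i, hi, hi'⟩ ⟨j, hj, hj'⟩ h
    have h2 := congrArg Subtype.val h
    change dn μ.1 i = dn μ.1 j at h2
    by_contra hne
    have hij : i ≠ j := fun h => hne (Subtype.ext h)
    have h3 := congrFun h2 i
    rw [dn_self, dn_ne _ hij] at h3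
    omega
  rw [h1, Set.ncard_image_of_injective _ hinj, Set.ncard_univ, Nat.card_eq_fintype_card,
    Fintype.card_subtype]
  unfold dd
  rw [Finset.card_filter]
  push_cast
  rfl

/-! ### words and chains -/

lemma st_succ {m N : ℕ} (w : Fin N → Fin m) (μ : Fin m → ℕ) (j : ℕ) (hj : j < N) :
    st μ w (j + 1) = up (st μ w j) (w ⟨j, hj⟩) := by
  funext i
  unfold st
  have h1 : (univ.filter (fun t : Fin N => (t : ℕ) < j + 1 ∧ w t = i)).card =
      (univ.filter (fun t : Fin N => (t : ℕ) < j ∧ w t = i)).card +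
        (if w ⟨j, hj⟩ = i then 1 else 0) := by
    have h2 : univ.filter (fun t : Fin N => (t : ℕ) < j + 1 ∧ w t = i) =
        univ.filter (fun t : Fin N => (t : ℕ) < j ∧ w t = i) ∪
          (if w ⟨j, hj⟩ = i then {(⟨j, hj⟩ : Fin N)} else ∅) := by
      ext t
      simp only [mem_filter, mem_univ, true_and, mem_union]
      constructor
      · rintro ⟨h3, h4⟩
        by_cases ht : (t : ℕ) < j
        · exact Or.inl ⟨ht, h4⟩
        · have h5 : t = ⟨j, hj⟩ := Fin.ext (by change (t : ℕ) = j; omega)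
          right
          rw [← h5, if_pos h4]
          exact mem_singleton_self _
      · rintro (⟨h3, h4⟩ | h3)
        · exact ⟨by omega, h4⟩
        · by_cases hw : w ⟨j, hj⟩ = i
          · rw [if_pos hw, mem_singleton] at h3
            subst h3
            exact ⟨Nat.lt_succ_self _, hw⟩
          · rw [if_neg hw] at h3
            exact absurd h3 (notMem_empty _)
    rw [h2, card_union_of_disjoint]
    · congr 1
      split_ifs <;> simp
    · rw [disjoint_left]
      intro t ht1 ht2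
      rw [mem_filter] at ht1
      by_cases hw : w ⟨j, hj⟩ = i
      · rw [if_pos hw, mem_singleton] at ht2
        rw [ht2] at ht1
        exact absurd ht1.2.1 (lt_irrefl _)
      · rw [if_neg hw] at ht2
        exact absurd ht2 (notMem_empty _)
  rw [h1]
  by_cases hw : w ⟨j, hj⟩ = i
  · rw [if_pos hw, ← hw, up_self]
    rfl
  · rw [if_neg hw, up_ne _ (Ne.symm hw)]
    rfl

lemma sum_st {m N : ℕ} (w : Fin N → Fin m) (μ : Fin m → ℕ) (j : ℕ) (hj : j ≤ N) :
    ∑ i, st μ w j i = (∑ i, μ i) + j := by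
  induction j with
  | zero => rw [st_zero]; rfl
  | succ j ih =>
    rw [st_succ w μ j hj, sum_up, ih (by omega)]
    omega

lemma st_mono {m N : ℕ} (w : Fin N → Fin m) (μ : Fin m → ℕ) {a b : ℕ} (h : a ≤ b) (i : Fin m) :
    st μ w a i ≤ st μ w b i := by
  unfold st
  refine Nat.add_le_add_left (card_le_card fun t ht => ?_) _
  rw [mem_filter] at *
  exact ⟨ht.1, by omega, ht.2.2⟩

section
variable {n k : ℕ} (hk : 2 * k < n)

/-- The top member. -/
def tp : PV n (k + 1) := ⟨top n k, top_mem hk⟩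

/-- The bottom member. -/
def bt (n m : ℕ) : PV n m := ⟨0, zero_mem n m⟩

lemma le_tp (x : PV n (k + 1)) : x ≤ tp hk := fun i => (mem_VS.1 x.2).1 i

lemma bt_le {n m : ℕ} (x : PV n m) : bt n m ≤ x := fun i => Nat.zero_le _

lemma siz_bt (n m : ℕ) : siz (bt n m) = 0 := by
  unfold siz bt
  simp

/-- The states of a word as a set of members. -/
def chs {n m N : ℕ} (w : Fin N → Fin m) : Set (PV n m) := {x | ∃ j ≤ N, st 0 w j = x.1}

variable (N : ℕ) (hN : N = siz (tp hk))
include hN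

lemma siz_le (x : PV n (k + 1)) : siz x ≤ N := hN ▸ siz_mono (le_tp hk x)

lemma chs_max (w : Fin N → Fin (k + 1)) (hw : w ∈ WS (· ∈ VS n (k + 1)) (top n k) N 0) :
    IsMaxChain (· ≤ ·) (chs w : Set (PV n (k + 1))) := by
  rw [mem_WS] at hw
  refine ⟨?_, ?_⟩
  · rintro x ⟨a, ha, hxa⟩ y ⟨b, hb, hyb⟩ -
    rcases le_total a b with h | h
    · left
      intro i
      rw [← hxa, ← hyb]
      exact st_mono w 0 h i
    · right
      intro i
      rw [← hxa, ← hyb]
      exact st_mono w 0 h i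
  · intro c hc hsub
    refine Set.Subset.antisymm hsub fun y hy => ?_
    have hs : siz y ≤ N := siz_le hk N hN y
    set x : PV n (k + 1) := ⟨st 0 w (siz y), hw.1 _ hs⟩ with hx
    have hxc : x ∈ c := hsub ⟨siz y, hs, rfl⟩
    have hxs : siz x = siz y := by
      change ∑ i, st 0 w (siz y) i = siz y
      rw [sum_st w 0 _ hs]
      simp
    have hxy : x = y := by
      by_contra hne
      rcases hc hxc hy hne with h | h
      · exact hne (eq_of_le_siz h hxs)
      · exact hne (eq_of_le_siz h hxs.symm).symm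
    exact ⟨siz y, hs, congrArg Subtype.val hxy⟩

lemma chs_inj (w w' : Fin N → Fin (k + 1)) (hw : w ∈ WS (· ∈ VS n (k + 1)) (top n k) N 0)
    (hw' : w' ∈ WS (· ∈ VS n (k + 1)) (top n k) N 0)
    (h : (chs w : Set (PV n (k + 1))) = chs w') : w = w' := by
  rw [mem_WS] at hw hw'
  have key : ∀ j ≤ N, st 0 w j = st 0 w' j := by
    intro j hj
    have h1 : (⟨st 0 w j, hw.1 j hj⟩ : PV n (k + 1)) ∈ (chs w' : Set (PV n (k + 1))) := by
      rw [← h]
      exact ⟨j, hj, rfl⟩
    obtain ⟨b, hb, h2⟩ := h1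
    change st 0 w' b = st 0 w j at h2
    have h3 : b = j := by
      have h4 := sum_st w' 0 b hb
      rw [h2, sum_st w 0 j hj] at h4
      simpa using h4.symm
    rw [← h2, h3]
  funext t
  have h1 := key t.1 t.2.le
  have h2 := key (t.1 + 1) t.2
  rw [st_succ w 0 t.1 t.2, st_succ w' 0 t.1 t.2, h1] at h2
  by_contra hne
  have h3 := congrFun h2 (w t)
  change up (st 0 w' ↑t) (w t) (w t) = up (st 0 w' ↑t) (w' t) (w t) at h3
  rw [up_self, up_ne _ hne] at h3
  omega

lemma exists_siz (c : Set (PV n (k + 1))) (hc : IsMaxChain (· ≤ ·) c) (s : ℕ) (hs : s ≤ N) :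
    ∃ x ∈ c, siz x = s := by
  have hbt : bt n (k + 1) ∈ c := by
    have h1 : IsChain (· ≤ ·) (insert (bt n (k + 1)) c) :=
      hc.1.insert fun b _ _ => Or.inl (bt_le b)
    have h2 := hc.2 h1 (Set.subset_insert _ _)
    rw [h2]
    exact Set.mem_insert _ _
  have htp : tp hk ∈ c := by
    have h1 : IsChain (· ≤ ·) (insert (tp hk) c) :=
      hc.1.insert fun b _ _ => Or.inr (le_tp hk b)
    have h2 := hc.2 h1 (Set.subset_insert _ _)
    rw [h2]
    exact Set.mem_insert _ _
  -- the largest element of size at most `s`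
  obtain ⟨a, ⟨hac, has⟩, hamax⟩ := Set.Finite.exists_maximalFor siz
    {x : PV n (k + 1) | x ∈ c ∧ siz x ≤ s} (Set.toFinite _)
    ⟨bt n (k + 1), hbt, by rw [siz_bt]; exact Nat.zero_le _⟩
  by_contra hcon
  push Not at hcon
  have has' : siz a < s := lt_of_le_of_ne has (hcon a hac)
  have hsN : s < N := by
    rcases hs.lt_or_eq with h | h
    · exact h
    · exact absurd (hN.symm.trans h.symm) (hcon _ htp)
  obtain ⟨b, ⟨hbc, hbs⟩, hbmin⟩ := Set.Finite.exists_minimalFor siz
    {x : PV n (k + 1) | x ∈ c ∧ s < siz x} (Set.toFinite _)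
    ⟨tp hk, htp, by rw [← hN]; exact hsN⟩
  have hab : a < b := by
    have hne : a ≠ b := by
      rintro rfl
      omega
    rcases hc.1 hac hbc hne with h | h
    · exact lt_of_le_of_ne h hne
    · have := siz_mono h
      omega
  -- an element covered by `b` above `a`
  obtain ⟨i, h0, h1, h2⟩ := exists_dn hab
  set d : PV n (k + 1) := ⟨dn b.1 i, h1⟩ with hd
  have hdb : d < b := dn_lt h0 h1
  have had : a ≤ d := h2
  have hds := siz_dn h0 h1
  have hchain : IsChain (· ≤ ·) (insert d c) := by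
    refine hc.1.insert fun x hx hne => ?_
    by_cases hxs : siz x ≤ s
    · right
      have hxa : x ≤ a := by
        by_cases hxa : x = a
        · exact hxa.le
        · rcases hc.1 hx hac hxa with h | h
          · exact h
          · have h3 : siz x ≤ siz a := hamax ⟨hx, hxs⟩ (siz_mono h)
            exact (eq_of_le_siz h (le_antisymm (siz_mono h) h3)).ge
      exact hxa.trans had
    · left
      have hbx : b ≤ x := by
        by_cases hxb : x = b
        · exact hxb.ge
        · rcases hc.1 hx hbc hxb with h | h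
          · have h3 : siz b ≤ siz x := hbmin ⟨hx, not_le.1 hxs⟩ (siz_mono h)
            exact (eq_of_le_siz h (le_antisymm (siz_mono h) h3)).ge
          · exact h
      exact hdb.le.trans hbx
  have hdc : d ∈ c := by
    have h3 := hc.2 hchain (Set.subset_insert _ _)
    rw [h3]
    exact Set.mem_insert _ _
  have hds2 : siz d + 1 = siz b := hds
  by_cases hcase : s < siz d
  · have h3 : siz b ≤ siz d := hbmin ⟨hdc, hcase⟩ (siz_mono hdb.le)
    omega
  · exact absurd (by omega : siz d = s) (hcon d hdc)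

lemma chs_surj (c : Set (PV n (k + 1))) (hc : IsMaxChain (· ≤ ·) c) :
    ∃ w ∈ WS (· ∈ VS n (k + 1)) (top n k) N 0, (chs w : Set (PV n (k + 1))) = c := by
  choose f hfc hfs using exists_siz hk N hN c hc
  have hle : ∀ a b (ha : a ≤ N) (hb : b ≤ N), a ≤ b → f a ha ≤ f b hb := by
    intro a b ha hb hab
    by_cases hne : f a ha = f b hb
    · exact hne.le
    · rcases hc.1 (hfc a ha) (hfc b hb) hne with h | h
      · exact h
      · have h1 := siz_mono h
        rw [hfs, hfs] at h1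
        exact (eq_of_le_siz h (by rw [hfs, hfs]; omega)).ge
  have hstep : ∀ t : Fin N, ∃ i, (f (t.1 + 1) t.2).1 = up (f t.1 t.2.le).1 i := by
    intro t
    have hlt : f t.1 t.2.le < f (t.1 + 1) t.2 := by
      refine lt_of_le_of_ne (hle _ _ _ _ (Nat.le_succ _)) fun h => ?_
      have h1 := congrArg siz h
      rw [hfs, hfs] at h1
      omega
    obtain ⟨i, h0, h1, h2⟩ := exists_dn hlt
    refine ⟨i, ?_⟩
    have h3 : f t.1 t.2.le = ⟨dn (f (t.1 + 1) t.2).1 i, h1⟩ := by
      refine eq_of_le_siz h2 ?_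
      have h4 := siz_dn h0 h1
      rw [hfs] at h4
      rw [hfs]
      omega
    rw [h3]
    change _ = up (dn (f (t.1 + 1) t.2).1 i) i
    rw [up_dn _ _ h0]
  choose w hw using hstep
  have hst : ∀ j (hj : j ≤ N), st 0 w j = (f j hj).1 := by
    intro j
    induction j with
    | zero =>
      intro hj
      rw [st_zero]
      have h1 : bt n (k + 1) = f 0 hj :=
        eq_of_le_siz (bt_le _) (by rw [hfs, siz_bt])
      rw [← h1]
      rfl
    | succ j ih =>
      intro hj
      rw [st_succ w 0 j hj, ih (by omega)]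
      exact (hw ⟨j, hj⟩).symm
  refine ⟨w, ?_, ?_⟩
  · rw [mem_WS]
    refine ⟨fun j hj => ?_, ?_⟩
    · rw [hst j hj]
      exact (f j hj).2
    · rw [hst N le_rfl]
      have h1 : f N le_rfl = tp hk := eq_of_le_siz (le_tp hk _) (by rw [hfs, ← hN])
      rw [h1]
      rfl
  · ext x
    constructor
    · rintro ⟨j, hj, hx⟩
      rw [hst j hj] at hx
      rw [← Subtype.ext hx]
      exact hfc j hj
    · intro hx
      have hs := siz_le hk N hN x
      refine ⟨siz x, hs, ?_⟩
      rw [hst _ hs]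
      congr 1
      by_contra hne
      rcases hc.1 (hfc _ hs) hx hne with h | h
      · exact hne (eq_of_le_siz h (hfs _ _))
      · exact hne (eq_of_le_siz h (hfs _ _).symm).symm

/-- Sums over the members weighted by the number of maximal chains through them. -/
lemma sum_chains (φ : (Fin (k + 1) → ℕ) → ℚ) :
    ∑ x : PV n (k + 1), (({c : Set (PV n (k + 1)) | IsMaxChain (· ≤ ·) c ∧ x ∈ c}.ncard : ℕ) : ℚ) *
      φ x.1 =
    ∑ w ∈ WS (· ∈ VS n (k + 1)) (top n k) N 0, ∑ j ∈ range (N + 1), φ (st 0 w j) := by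
  have h1 : ∀ x : PV n (k + 1),
      {c : Set (PV n (k + 1)) | IsMaxChain (· ≤ ·) c ∧ x ∈ c} =
      (fun w : Fin N → Fin (k + 1) => (chs w : Set (PV n (k + 1)))) ''
        (↑((WS (· ∈ VS n (k + 1)) (top n k) N 0).filter
          (fun w => x ∈ (chs w : Set (PV n (k + 1))))) : Set (Fin N → Fin (k + 1))) := by
    intro x
    ext c
    simp only [Set.mem_ofPred_eq, Set.mem_image, coe_filter]
    constructor
    · rintro ⟨hc, hx⟩
      obtain ⟨w, hw, rfl⟩ := chs_surj hk N hN c hc
      exact ⟨w, ⟨hw, hx⟩, rfl⟩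
    · rintro ⟨w, ⟨hw, hx⟩, rfl⟩
      exact ⟨chs_max hk N hN w hw, hx⟩
  have h2 : ∀ x : PV n (k + 1),
      (({c : Set (PV n (k + 1)) | IsMaxChain (· ≤ ·) c ∧ x ∈ c}.ncard : ℕ) : ℚ) =
      ∑ w ∈ WS (· ∈ VS n (k + 1)) (top n k) N 0,
        (if x ∈ (chs w : Set (PV n (k + 1))) then (1 : ℚ) else 0) := by
    intro x
    rw [h1 x, Set.ncard_image_of_injOn, Set.ncard_coe_finset, card_filter]
    · push_cast
      rfl
    · intro w hw w' hw' h
      rw [mem_coe, mem_filter] at hw hw'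
      exact chs_inj hk N hN w w' hw.1 hw'.1 h
  simp_rw [h2, sum_mul]
  rw [sum_comm]
  refine sum_congr rfl fun w hw => ?_
  rw [mem_WS] at hw
  have h3 : ∀ j ∈ range (N + 1), st 0 w j ∈ VS n (k + 1) := fun j hj =>
    hw.1 j (Nat.lt_succ_iff.1 (mem_range.1 hj))
  have h4 : ∑ x : PV n (k + 1), (if x ∈ (chs w : Set (PV n (k + 1))) then (1 : ℚ) else 0) * φ x.1 =
      ∑ μ ∈ (range (N + 1)).image (fun j => st 0 w j), φ μ := by
    have h5 : ∑ x : PV n (k + 1),
        (if x ∈ (chs w : Set (PV n (k + 1))) then (1 : ℚ) else 0) * φ x.1 =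
        ∑ μ ∈ VS n (k + 1), (if ∃ j ≤ N, st 0 w j = μ then (1 : ℚ) else 0) * φ μ := by
      rw [← Finset.sum_coe_sort (VS n (k + 1))
        (fun μ => (if ∃ j ≤ N, st 0 w j = μ then (1 : ℚ) else 0) * φ μ)]
      refine Finset.sum_congr rfl fun x _ => ?_
      have h6 : x ∈ (chs w : Set (PV n (k + 1))) ↔ ∃ j ≤ N, st 0 w j = x.1 := Iff.rfl
      by_cases h7 : x ∈ (chs w : Set (PV n (k + 1)))
      · rw [if_pos h7, if_pos (h6.1 h7)]
      · rw [if_neg h7, if_neg (fun h => h7 (h6.2 h))]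
    rw [h5]
    simp_rw [ite_mul, one_mul, zero_mul]
    rw [← sum_filter]
    refine sum_congr ?_ fun _ _ => rfl
    ext μ
    simp only [mem_filter, mem_image, mem_range]
    constructor
    · rintro ⟨_, j, hj, rfl⟩
      exact ⟨j, by omega, rfl⟩
    · rintro ⟨j, hj, rfl⟩
      exact ⟨h3 j (mem_range.2 hj), j, by omega, rfl⟩
  rw [h4, sum_image]
  intro a ha b hb hab
  rw [mem_coe, mem_range] at ha hb
  have h5 := sum_st w 0 a (by omega)
  have h6 := sum_st w 0 b (by omega)
  change st 0 w a = st 0 w b at hab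
  rw [hab, h6] at h5
  simpa using h5.symm

end

end Pool.Agent.Lib.MP_f5b555_co
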