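import Mathlib
import Pool.Agent.Lib.MP_f5b555_co.Poset

/-!
The two averages for the poset of the members of `VS n (k + 1)`.
-/

set_option autoImplicit false

namespace Pool.Agent.Lib.MP_f5b555_co

open Finset
open scoped Classical

/-- The number of boxes of the trapezoid. -/
lemma siz_tp {n k : ℕ} (hk : 2 * k < n) :
    siz (tp hk) = ∑ i : Fin (k + 1), (n - 2 * (i : ℕ)) := rfl

/-- The uniform average of the down degree. -/
theorem core_uniform {n k : ℕ} (hk : 2 * k < n) :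
    (∑ x : PV n (k + 1), dd (VS n (k + 1)) x.1) / (Fintype.card (PV n (k + 1)) : ℚ) =
      (siz (tp hk) : ℚ) / ((n : ℚ) + 1) := by
  have hcard0 : ((VS n (k + 1)).card : ℚ) ≠ 0 := by
    have := Finset.card_pos.2 ⟨_, zero_mem n (k + 1)⟩
    exact_mod_cast this.ne'
  have hn1 : (n : ℚ) + 1 ≠ 0 := by positivity
  have hNq := sum_rows n k hk
  rw [Fintype.card_coe, Finset.sum_coe_sort (VS n (k + 1)) (fun μ => dd (VS n (k + 1)) μ),
    uniform_sum hk, siz_tp hk, hNq]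
  field_simp

/-- The average of the down degree with weights the numbers of maximal chains. -/
theorem core_chains {n k : ℕ} (hk : 2 * k < n) :
    (∑ x : PV n (k + 1),
        (({c : Set (PV n (k + 1)) | IsMaxChain (· ≤ ·) c ∧ x ∈ c}.ncard : ℕ) : ℚ) *
          dd (VS n (k + 1)) x.1) /
      (∑ x : PV n (k + 1),
        (({c : Set (PV n (k + 1)) | IsMaxChain (· ≤ ·) c ∧ x ∈ c}.ncard : ℕ) : ℚ)) =
      (siz (tp hk) : ℚ) / ((n : ℚ) + 1) := by
  have hP : ∀ μ : Fin (k + 1) → ℕ, μ ∈ VS n (k + 1) ↔ μ ∈ VS n (k + 1) := fun μ => Iff.rfl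
  have h1 := sum_chains hk (siz (tp hk)) rfl (dd (VS n (k + 1)))
  have h2 := sum_chains hk (siz (tp hk)) rfl (fun _ => 1)
  simp only [mul_one, sum_const, card_range, nsmul_eq_mul] at h2
  have hN1 : (siz (tp hk) : ℚ) + 1 ≠ 0 := by positivity
  have hn1 : (n : ℚ) + 1 ≠ 0 := by positivity
  have hF0 := Fh_top_ne hk
  have hcardW : ((WS (· ∈ VS n (k + 1)) (top n k) (siz (tp hk)) 0).card : ℚ) = Fh (top n k) := by
    rw [← hh_zero hk (· ∈ VS n (k + 1)) hP]
    unfold hh cs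
    have h0 : ∑ i, (0 : Fin (k + 1) → ℕ) i = 0 := by simp
    rw [h0, Nat.sub_zero, sum_const, nsmul_eq_mul, mul_one]
    rfl
  have hsumW : ∑ w ∈ WS (· ∈ VS n (k + 1)) (top n k) (siz (tp hk)) 0,
        ∑ j ∈ range (siz (tp hk) + 1), dd (VS n (k + 1)) (st 0 w j) =
      (((k : ℚ) + 1) * ((n : ℚ) - k)) / ((n : ℚ) + 1) *
      (((siz (tp hk) : ℚ) + 1) * Fh (top n k)) := by
    have h3 := chain_sum hk (· ∈ VS n (k + 1)) hP
    have h4 := qq_zero hk (· ∈ VS n (k + 1)) hP (dd (VS n (k + 1)))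
    have h5 : ∑ μ ∈ VS n (k + 1), Fh μ * hh (· ∈ VS n (k + 1)) (top n k) μ *
          dd (VS n (k + 1)) μ =
        ∑ μ ∈ VS n (k + 1), Fh μ * (dd (VS n (k + 1)) μ *
          hh (· ∈ VS n (k + 1)) (top n k) μ) := by
      refine Finset.sum_congr rfl fun μ _ => ?_
      ring
    rw [h5, ← h4] at h3
    unfold qq qs at h3
    have h0 : ∑ i, (0 : Fin (k + 1) → ℕ) i = 0 := by simp
    rw [h0, Nat.sub_zero] at h3
    exact h3
  have hNq : (siz (tp hk) : ℚ) = ((k : ℚ) + 1) * ((n : ℚ) - k) := by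
    rw [siz_tp hk]
    exact sum_rows n k hk
  rw [h1, hsumW, h2, hcardW, Nat.cast_add, Nat.cast_one]
  rw [hNq] at hN1 ⊢
  field_simp

end Pool.Agent.Lib.MP_f5b555_co
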