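import Mathlib
import Pool.Agent.Lib.MP_f5b555_co.Core

/-!
Trapezoidal shifted Young lattices have coincidental down-degree expectations.
-/

set_option autoImplicit false

namespace Pool.Agent.Lib.MP_f5b555_co.Interval

/-- A strict partition, written as the sequence of its parts followed by zeros (the parts are
`μ 0 > μ 1 > ...`, counted from `0`). -/
def IsStrictPartition (μ : ℕ → ℕ) : Prop := ∀ i, μ (i + 1) = 0 ∨ μ (i + 1) < μ i

/-- The shifted Young diagram: row `i` consists of the boxes `(i, j)`, `i ≤ j < i + μ i`. -/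
def shiftedDiagram (μ : ℕ → ℕ) : Set (ℕ × ℕ) := {b | b.1 ≤ b.2 ∧ b.2 < b.1 + μ b.1}

/-- The shifted diagrams of strict partitions which are contained in the diagram of `lam`:
the initial interval of `lam` in the shifted Young lattice, ordered by inclusion. -/
def shiftedInterval (lam : ℕ → ℕ) : Set (Set (ℕ × ℕ)) :=
  {D | ∃ μ, IsStrictPartition μ ∧ D = shiftedDiagram μ ∧ D ⊆ shiftedDiagram lam}

/-- The trapezoid `(n, n - 2, ..., n - 2 k)`. -/
def trapezoid (n k : ℕ) : ℕ → ℕ := fun i => if i ≤ k then n - 2 * i else 0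

/-- The down degree: the number of elements covered by `x`. -/
noncomputable def ddeg {L : Type*} [PartialOrder L] (x : L) : ℕ := {y : L | y ⋖ x}.ncard

/-- The number of maximal chains containing `x`. -/
noncomputable def chainsThrough {L : Type*} [PartialOrder L] (x : L) : ℕ :=
  {c : Set L | IsMaxChain (· ≤ ·) c ∧ x ∈ c}.ncard

/-- The expected down degree for the uniform distribution. -/
noncomputable def uniformExpectation (L : Type*) [PartialOrder L] : ℚ :=
  (∑ᶠ x : L, (ddeg x : ℚ)) / (Nat.card L : ℚ)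

/-- The expected down degree for the distribution giving each element a probability proportional to
the number of maximal chains containing it. -/
noncomputable def maxchainExpectation (L : Type*) [PartialOrder L] : ℚ :=
  (∑ᶠ x : L, (chainsThrough x : ℚ) * (ddeg x : ℚ)) / (∑ᶠ x : L, (chainsThrough x : ℚ))

/-! ### transport along an order isomorphism -/

section transport
variable {A B : Type} [PartialOrder A] [PartialOrder B] (e : A ≃o B)

lemma ddeg_iso (x : A) : ddeg (e x) = ddeg x := by
  unfold ddeg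
  have h : {y : B | y ⋖ e x} = e '' {y : A | y ⋖ x} := by
    ext y
    constructor
    · intro hy
      refine ⟨e.symm y, ?_, e.apply_symm_apply y⟩
      have hy' : e (e.symm y) ⋖ e x := by rw [e.apply_symm_apply]; exact hy
      exact (apply_covBy_apply_iff e).1 hy'
    · rintro ⟨z, hz, rfl⟩
      exact (apply_covBy_apply_iff e).2 hz
  rw [h, Set.ncard_image_of_injective _ e.injective]

lemma chainsThrough_iso (x : A) : chainsThrough (e x) = chainsThrough x := by
  unfold chainsThrough
  have himg : ∀ {A B : Type} [PartialOrder A] [PartialOrder B] (e : A ≃o B) {c : Set A},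
      IsMaxChain (· ≤ ·) c → IsMaxChain (· ≤ ·) (e '' c) := by
    intro A B _ _ e c hc
    refine ⟨?_, ?_⟩
    · rintro _ ⟨a, ha, rfl⟩ _ ⟨b, hb, rfl⟩ hne
      have hab : a ≠ b := fun h => hne (by rw [h])
      rcases hc.1 ha hb hab with h | h
      · exact Or.inl (e.le_iff_le.2 h)
      · exact Or.inr (e.le_iff_le.2 h)
    · intro t ht hsub
      have h1 : IsChain (· ≤ ·) (e ⁻¹' t) := by
        intro a ha b hb hne
        rcases ht ha hb (fun h => hne (e.injective h)) with h | h
        · exact Or.inl (e.le_iff_le.1 h)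
        · exact Or.inr (e.le_iff_le.1 h)
      have h2 : c ⊆ e ⁻¹' t := fun a ha => hsub ⟨a, ha, rfl⟩
      have h3 := hc.2 h1 h2
      rw [h3, Set.image_preimage_eq _ e.surjective]
  have h : {c : Set B | IsMaxChain (· ≤ ·) c ∧ e x ∈ c} =
      (fun c : Set A => e '' c) '' {c : Set A | IsMaxChain (· ≤ ·) c ∧ x ∈ c} := by
    ext c
    constructor
    · rintro ⟨h1, h2⟩
      refine ⟨e.symm '' c, ⟨himg e.symm h1, ⟨e x, h2, e.symm_apply_apply x⟩⟩, ?_⟩
      change e '' (e.symm '' c) = c
      rw [← Set.image_comp]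
      ext y
      constructor
      · rintro ⟨z, hz, rfl⟩
        change e (e.symm z) ∈ c
        rw [e.apply_symm_apply]
        exact hz
      · intro hy
        exact ⟨y, hy, e.apply_symm_apply y⟩
    · rintro ⟨d, ⟨h1, h2⟩, rfl⟩
      exact ⟨himg e h1, ⟨x, h2, rfl⟩⟩
  rw [h, Set.ncard_image_of_injective _ (Set.image_injective.2 e.injective)]

end transport

/-! ### the interval as the poset of the functions of `VS` -/

open Pool.Agent.Lib.MP_f5b555_co

/-- A function on rows extended by zero. -/
def ext {m : ℕ} (μ : Fin m → ℕ) : ℕ → ℕ := fun i => if h : i < m then μ ⟨i, h⟩ else 0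

lemma ext_lt {m : ℕ} (μ : Fin m → ℕ) (i : Fin m) : ext μ i = μ i := by
  unfold ext
  rw [dif_pos i.isLt]

lemma ext_ge {m : ℕ} (μ : Fin m → ℕ) {i : ℕ} (h : m ≤ i) : ext μ i = 0 := by
  unfold ext
  rw [dif_neg (not_lt.2 h)]

lemma diag_le_iff (μ ν : ℕ → ℕ) : shiftedDiagram μ ⊆ shiftedDiagram ν ↔ ∀ i, μ i ≤ ν i := by
  constructor
  · intro h i
    by_contra hc
    push Not at hc
    have h1 : (i, i + μ i - 1) ∈ shiftedDiagram μ := by
      refine ⟨?_, ?_⟩
      · change i ≤ i + μ i - 1
        omega
      · change i + μ i - 1 < i + μ i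
        omega
    have h2 := (h h1).2
    change i + μ i - 1 < i + ν i at h2
    omega
  · rintro h ⟨i, j⟩ ⟨h1, h2⟩
    refine ⟨h1, ?_⟩
    change j < i + ν i
    change j < i + μ i at h2
    have := h i
    omega

lemma strict_ext {n m : ℕ} {μ : Fin m → ℕ} (h : μ ∈ VS n m) : IsStrictPartition (ext μ) := by
  intro i
  by_cases hi : i + 1 < m
  · have h1 := (mem_VS.1 h).2 ⟨i, by omega⟩ ⟨i + 1, hi⟩ (Fin.lt_def.2 (Nat.lt_succ_self i))
    have h2 := ext_lt μ ⟨i, by omega⟩
    have h3 := ext_lt μ ⟨i + 1, hi⟩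
    change ext μ i = _ at h2
    change ext μ (i + 1) = _ at h3
    rw [h2, h3]
    exact h1
  · left
    exact ext_ge μ (by omega)

lemma strict_lt {μ : ℕ → ℕ} (h : IsStrictPartition μ) (i d : ℕ) :
    μ (i + d + 1) = 0 ∨ μ (i + d + 1) < μ i := by
  induction d with
  | zero => exact h i
  | succ d ih =>
    have h1 := h (i + d + 1)
    change μ (i + d + 1 + 1) = 0 ∨ μ (i + d + 1 + 1) < μ i
    omega

lemma trapezoid_eq (n k : ℕ) : trapezoid n k = ext (top n k) := by
  funext i
  unfold trapezoid ext top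
  by_cases h : i ≤ k
  · rw [if_pos h, dif_pos (Nat.lt_succ_iff.2 h)]
  · rw [if_neg h, dif_neg (by omega)]

/-- The diagram of a function of `VS` as a member of the interval. -/
def toInterval {n k : ℕ} (x : PV n (k + 1)) : ↥(shiftedInterval (trapezoid n k)) :=
  ⟨shiftedDiagram (ext x.1), ext x.1, strict_ext x.2, rfl, by
    rw [trapezoid_eq, diag_le_iff]
    intro i
    by_cases hi : i < k + 1
    · have h1 := ext_lt x.1 ⟨i, hi⟩
      have h2 := ext_lt (top n k) ⟨i, hi⟩
      change ext x.1 i = _ at h1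
      change ext (top n k) i = _ at h2
      rw [h1, h2]
      exact (mem_VS.1 x.2).1 _
    · rw [ext_ge x.1 (not_lt.1 hi)]
      exact Nat.zero_le _⟩

lemma toInterval_le_iff {n k : ℕ} (x y : PV n (k + 1)) :
    toInterval x ≤ toInterval y ↔ x ≤ y := by
  change shiftedDiagram (ext x.1) ⊆ shiftedDiagram (ext y.1) ↔ ∀ i, x.1 i ≤ y.1 i
  rw [diag_le_iff]
  constructor
  · intro h i
    have h1 := h i
    rw [ext_lt, ext_lt] at h1
    exact h1
  · intro h i
    by_cases hi : i < k + 1
    · have h1 := ext_lt x.1 ⟨i, hi⟩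
      have h2 := ext_lt y.1 ⟨i, hi⟩
      change ext x.1 i = _ at h1
      change ext y.1 i = _ at h2
      rw [h1, h2]
      exact h _
    · rw [ext_ge x.1 (not_lt.1 hi)]
      exact Nat.zero_le _

lemma toInterval_surj {n k : ℕ} :
    Function.Surjective (toInterval : PV n (k + 1) → ↥(shiftedInterval (trapezoid n k))) := by
  rintro ⟨D, μ, hμ, rfl, hD⟩
  rw [diag_le_iff] at hD
  have hle : ∀ i : Fin (k + 1), μ i ≤ n - 2 * (i : ℕ) := by
    intro i
    have h1 := hD i
    unfold trapezoid at h1
    rw [if_pos (Nat.lt_succ_iff.1 i.isLt)] at h1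
    exact h1
  have hz : ∀ i, k + 1 ≤ i → μ i = 0 := by
    intro i hi
    have h1 := hD i
    unfold trapezoid at h1
    rw [if_neg (by omega)] at h1
    exact Nat.le_zero.1 h1
  have hmem : (fun i : Fin (k + 1) => μ i) ∈ VS n (k + 1) := by
    rw [mem_VS]
    refine ⟨hle, fun i j hij => ?_⟩
    have h1 := Fin.lt_def.1 hij
    have h2 := strict_lt hμ i (j - i - 1)
    have h3 : (i : ℕ) + ((j : ℕ) - i - 1) + 1 = j := by omega
    rw [h3] at h2
    exact h2
  refine ⟨⟨fun i : Fin (k + 1) => μ i, hmem⟩, Subtype.ext ?_⟩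
  change shiftedDiagram (ext fun i : Fin (k + 1) => μ i) = shiftedDiagram μ
  congr 1
  funext i
  by_cases hi : i < k + 1
  · exact ext_lt (fun i : Fin (k + 1) => μ i) ⟨i, hi⟩
  · rw [ext_ge _ (not_lt.1 hi), hz i (not_lt.1 hi)]

/-- The interval is order isomorphic to the poset of the functions of `VS`. -/
noncomputable def isoInterval (n k : ℕ) :
    PV n (k + 1) ≃o ↥(shiftedInterval (trapezoid n k)) where
  toEquiv := Equiv.ofBijective toInterval
    ⟨fun x y h => le_antisymm ((toInterval_le_iff x y).1 h.le) ((toInterval_le_iff y x).1 h.ge),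
      toInterval_surj⟩
  map_rel_iff' := by
    intro x y
    exact toInterval_le_iff x y

lemma finite_interval (n k : ℕ) : Finite ↥(shiftedInterval (trapezoid n k)) :=
  Finite.of_equiv _ (isoInterval n k).toEquiv

lemma sum_interval (n k : ℕ) (f : ↥(shiftedInterval (trapezoid n k)) → ℚ) :
    ∑ᶠ x, f x = ∑ x : PV n (k + 1), f (isoInterval n k x) := by
  have h1 := finsum_comp_equiv (isoInterval n k).toEquiv (f := f)
  rw [← h1, finsum_eq_sum_of_fintype]
  rfl

lemma card_interval (n k : ℕ) :
    Nat.card ↥(shiftedInterval (trapezoid n k)) = Fintype.card (PV n (k + 1)) := by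
  rw [← Nat.card_congr (isoInterval n k).toEquiv, Nat.card_eq_fintype_card]

/-- The number of boxes of the trapezoid. -/
lemma boxes (n k : ℕ) (hk : 2 * k < n) :
    (shiftedDiagram (trapezoid n k)).ncard = siz (tp hk) := by
  have h1 : shiftedDiagram (trapezoid n k) =
      ((Finset.range (k + 1)).biUnion (fun i => (Finset.Ico i (i + (n - 2 * i))).image
        (fun j => (i, j))) : Finset (ℕ × ℕ)) := by
    ext ⟨i, j⟩
    simp only [Finset.coe_biUnion, Finset.coe_image, Finset.coe_range, Set.mem_iUnion,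
      Set.mem_image, Finset.coe_Ico]
    unfold shiftedDiagram trapezoid
    constructor
    · rintro ⟨h2, h3⟩
      change i ≤ j at h2
      change j < i + (if i ≤ k then n - 2 * i else 0) at h3
      by_cases hi : i ≤ k
      · rw [if_pos hi] at h3
        exact ⟨i, by change i < k + 1; omega, j, ⟨h2, h3⟩, rfl⟩
      · rw [if_neg hi] at h3
        omega
    · rintro ⟨i', hi', j', ⟨h2, h3⟩, h4⟩
      have hi : i' = i := congrArg Prod.fst h4
      have hj : j' = j := congrArg Prod.snd h4
      subst hi
      subst hj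
      change i' < k + 1 at hi'
      refine ⟨h2, ?_⟩
      change j' < i' + (if i' ≤ k then n - 2 * i' else 0)
      rw [if_pos (by omega)]
      exact h3
  rw [h1, Set.ncard_coe_finset, Finset.card_biUnion]
  · rw [siz_tp hk, Finset.sum_range]
    refine Finset.sum_congr rfl fun i _ => ?_
    rw [Finset.card_image_of_injective _ (fun a b h => congrArg Prod.snd h), Nat.card_Ico]
    omega
  · intro a _ b _ hab
    rw [Function.onFun, Finset.disjoint_left]
    intro p hp hq
    rw [Finset.mem_image] at hp hq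
    obtain ⟨x, _, rfl⟩ := hp
    obtain ⟨y, _, h⟩ := hq
    exact hab (congrArg Prod.fst h).symm

/-- The main statement. -/
theorem main (n k : ℕ) (hk : 2 * k < n) :
    uniformExpectation ↥(shiftedInterval (trapezoid n k)) =
      ((shiftedDiagram (trapezoid n k)).ncard : ℚ) / ((n : ℚ) + 1) ∧
    maxchainExpectation ↥(shiftedInterval (trapezoid n k)) =
      ((shiftedDiagram (trapezoid n k)).ncard : ℚ) / ((n : ℚ) + 1) := by
  have hd : ∀ x : PV n (k + 1), ((ddeg (isoInterval n k x) : ℕ) : ℚ) = dd (VS n (k + 1)) x.1 := by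
    intro x
    rw [ddeg_iso]
    exact ncard_covBy x
  rw [boxes n k hk]
  constructor
  · unfold uniformExpectation
    rw [sum_interval, card_interval, ← core_uniform hk]
    simp_rw [hd]
  · unfold maxchainExpectation
    rw [sum_interval, sum_interval, ← core_chains hk]
    simp_rw [hd, chainsThrough_iso]
    rfl

end Pool.Agent.Lib.MP_f5b555_co.Interval
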